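import Pool.Graph.R_seed8.TH142.WF.Main

set_option autoImplicit false
set_option linter.unusedSectionVars false

/-!
# Forms killed by powers of directional derivatives: dimensions
-/

open MvPolynomial

namespace Pool.Agent.KS6_98.FI

open Pool.Agent.H732R3.FI

variable {n : ℕ} {ι : Type*} [DecidableEq ι]

/-- Forms of degree `d` which are killed by `D_{v i} ^ (b i)` for all `i ∈ S`. -/
noncomputable def KK (v : ι → Fin (n + 1) → ℂ) (b : ι → ℕ) (S : Finset ι) (d : ℕ) :
    Submodule ℂ (MvPolynomial (Fin (n + 1)) ℂ) where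
  carrier := {F | F.IsHomogeneous d ∧ ∀ i ∈ S, (E (v i) ^ b i) F = 0}
  add_mem' := by
    rintro F G ⟨hF, hF'⟩ ⟨hG, hG'⟩
    exact ⟨hF.add hG, fun i hi => by rw [map_add, hF' i hi, hG' i hi, add_zero]⟩
  zero_mem' := ⟨isHomogeneous_zero _ _ _, fun i _ => map_zero _⟩
  smul_mem' := by
    rintro c F ⟨hF, hF'⟩
    exact ⟨(homogeneousSubmodule (Fin (n + 1)) ℂ d).smul_mem c hF,
      fun i hi => by rw [map_smul, hF' i hi, smul_zero]⟩

variable {v : ι → Fin (n + 1) → ℂ} {b : ι → ℕ} {S : Finset ι} {d : ℕ}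

theorem mem_KK {F : MvPolynomial (Fin (n + 1)) ℂ} :
    F ∈ KK v b S d ↔ F.IsHomogeneous d ∧ ∀ i ∈ S, (E (v i) ^ b i) F = 0 := Iff.rfl

theorem KK_le (v : ι → Fin (n + 1) → ℂ) (b : ι → ℕ) (S : Finset ι) (d : ℕ) :
    KK v b S d ≤ homogeneousSubmodule (Fin (n + 1)) ℂ d := fun _ hF => hF.1

instance (v : ι → Fin (n + 1) → ℂ) (b : ι → ℕ) (S : Finset ι) (d : ℕ) :
    Module.Finite ℂ ↥(KK v b S d) :=
  Submodule.finiteDimensional_of_le (KK_le v b S d)

theorem KK_empty : KK v b ∅ d = homogeneousSubmodule (Fin (n + 1)) ℂ d := by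
  ext F
  simp [mem_KK]

theorem Epow_comm (u w : Fin (n + 1) → ℂ) (a c : ℕ) (F : MvPolynomial (Fin (n + 1)) ℂ) :
    (E u ^ a) ((E w ^ c) F) = (E w ^ c) ((E u ^ a) F) := by
  have h := ((E_comm u w).pow_pow a c).eq
  have := congrArg (fun L : Module.End ℂ (MvPolynomial (Fin (n + 1)) ℂ) => L F) h
  simpa only [Module.End.mul_apply] using this

theorem Epow_mem (w : Fin (n + 1) → ℂ) (c : ℕ) {F : MvPolynomial (Fin (n + 1)) ℂ}
    (hF : F ∈ KK v b S (d + c)) : (E w ^ c) F ∈ KK v b S d :=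
  ⟨Epow_hom w c hF.1, fun i hi => by rw [Epow_comm, hF.2 i hi, map_zero]⟩

theorem KK_insert_le (j : ι) : KK v b (insert j S) d ≤ KK v b S d :=
  fun _ hF => ⟨hF.1, fun i hi => hF.2 i (Finset.mem_insert_of_mem hi)⟩

/-- Rank-nullity for `D_{v j} ^ (b j)`. -/
theorem rank_nullity (v : ι → Fin (n + 1) → ℂ) (b : ι → ℕ) (S : Finset ι) (d : ℕ) (j : ι) :
    Module.finrank ℂ ((KK v b S (d + b j)).map (E (v j) ^ b j)) +
      Module.finrank ℂ (KK v b (insert j S) (d + b j)) =
      Module.finrank ℂ (KK v b S (d + b j)) := by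
  set f : ↥(KK v b S (d + b j)) →ₗ[ℂ] MvPolynomial (Fin (n + 1)) ℂ :=
    (E (v j) ^ b j).domRestrict (KK v b S (d + b j)) with hf
  have h1 := LinearMap.finrank_range_add_finrank_ker f
  have h2 : LinearMap.range f = (KK v b S (d + b j)).map (E (v j) ^ b j) := by
    rw [hf, LinearMap.range_domRestrict]
  have h3 : LinearMap.ker f =
      (KK v b (insert j S) (d + b j)).comap (KK v b S (d + b j)).subtype := by
    ext F
    rw [LinearMap.mem_ker, Submodule.mem_comap, hf, LinearMap.domRestrict_apply]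
    constructor
    · intro h
      refine ⟨F.2.1, fun i hi => ?_⟩
      rw [Finset.mem_insert] at hi
      rcases hi with rfl | hi
      · exact h
      · exact F.2.2 i hi
    · intro h
      exact h.2 j (Finset.mem_insert_self _ _)
  have h4 : Module.finrank ℂ (LinearMap.ker f) =
      Module.finrank ℂ (KK v b (insert j S) (d + b j)) := by
    rw [h3]
    exact (Submodule.comapSubtypeEquivOfLe (KK_insert_le j)).finrank_eq
  rw [h2, h4] at h1
  exact h1

theorem map_le (v : ι → Fin (n + 1) → ℂ) (b : ι → ℕ) (S : Finset ι) (d : ℕ) (j : ι) :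
    (KK v b S (d + b j)).map (E (v j) ^ b j) ≤ KK v b S d := by
  rintro _ ⟨F, hF, rfl⟩
  exact Epow_mem (v j) (b j) hF

/-- The inequality, valid without any assumption. -/
theorem finrank_insert_ge (v : ι → Fin (n + 1) → ℂ) (b : ι → ℕ) (S : Finset ι) (d : ℕ) (j : ι) :
    Module.finrank ℂ (KK v b S (d + b j)) ≤
      Module.finrank ℂ (KK v b S d) + Module.finrank ℂ (KK v b (insert j S) (d + b j)) := by
  rw [← rank_nullity v b S d j]
  exact Nat.add_le_add_right (Submodule.finrank_mono (map_le v b S d j)) _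

theorem finrank_insert_eq {j : ι}
    (h : ∀ G ∈ KK v b S d, ∃ F ∈ KK v b S (d + b j), (E (v j) ^ b j) F = G) :
    Module.finrank ℂ (KK v b S d) + Module.finrank ℂ (KK v b (insert j S) (d + b j)) =
      Module.finrank ℂ (KK v b S (d + b j)) := by
  have h1 : (KK v b S (d + b j)).map (E (v j) ^ b j) = KK v b S d := by
    refine le_antisymm (map_le v b S d j) fun G hG => ?_
    obtain ⟨F, hF, hFG⟩ := h G hG
    exact ⟨F, hF, hFG⟩
  rw [← rank_nullity v b S d j, h1]

theorem KK_insert_small {j : ι} (hd : d < b j) : KK v b (insert j S) d = KK v b S d := by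
  refine le_antisymm (KK_insert_le j) fun F hF => ⟨hF.1, fun i hi => ?_⟩
  rw [Finset.mem_insert] at hi
  rcases hi with rfl | hi
  · exact Epow_hom_zero _ _ hd hF.1
  · exact hF.2 i hi

/-! ### Antiderivatives -/

/-- The antiderivative of `G` in the direction `v`, for a form `G` of degree `d`; `lam` is a linear
form with `lam v = 1`. -/
noncomputable def ant (u lam : Fin (n + 1) → ℂ) (d : ℕ) (G : MvPolynomial (Fin (n + 1)) ℂ) :
    MvPolynomial (Fin (n + 1)) ℂ :=
  ∑ k ∈ Finset.range (d + 1), ((-1) ^ k / ((k + 1).factorial : ℂ)) • (lf lam ^ (k + 1) * (E u ^ k) G)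

theorem ant_hom (u lam : Fin (n + 1) → ℂ) {d : ℕ} {G : MvPolynomial (Fin (n + 1)) ℂ}
    (hG : G.IsHomogeneous d) : (ant u lam d G).IsHomogeneous (d + 1) := by
  refine IsHomogeneous.sum _ _ _ fun k hk => ?_
  rw [Finset.mem_range] at hk
  have h1 : ((E u ^ k) G).IsHomogeneous (d - k) :=
    Epow_hom u k (by rwa [Nat.sub_add_cancel (by omega)])
  have h2 := ((lf_hom lam).pow (k + 1)).mul h1
  rw [show 1 * (k + 1) + (d - k) = d + 1 by omega] at h2
  exact (homogeneousSubmodule (Fin (n + 1)) ℂ (d + 1)).smul_mem _ h2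

theorem E_lf_pow (u lam : Fin (n + 1) → ℂ) (k : ℕ) :
    E u (lf lam ^ (k + 1)) = ((k + 1 : ℕ) : ℂ) • ((∑ i, lam i * u i) • lf lam ^ k) := by
  rw [E_apply, Derivation.leibniz_pow, ← E_apply, E_lf, Nat.add_sub_cancel, ← Nat.cast_smul_eq_nsmul ℂ,
    smul_eq_mul, MvPolynomial.smul_eq_C_mul, MvPolynomial.smul_eq_C_mul, MvPolynomial.smul_eq_C_mul]
  ring

theorem E_ant {u lam : Fin (n + 1) → ℂ} (hlam : ∑ i, lam i * u i = 1) {d : ℕ}
    {G : MvPolynomial (Fin (n + 1)) ℂ} (hG : G.IsHomogeneous d) : E u (ant u lam d G) = G := by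
  have h1 : ∀ k, E u (((-1 : ℂ) ^ k / ((k + 1).factorial : ℂ)) • (lf lam ^ (k + 1) * (E u ^ k) G)) =
      ((-1) ^ k / (k.factorial : ℂ)) • (lf lam ^ k * (E u ^ k) G) -
      ((-1) ^ (k + 1) / ((k + 1).factorial : ℂ)) • (lf lam ^ (k + 1) * (E u ^ (k + 1)) G) := by
    intro k
    have hk : ((k + 1).factorial : ℂ) = (k + 1) * (k.factorial : ℂ) := by
      rw [Nat.factorial_succ]
      push_cast
      ring
    have h2 : ((k : ℂ) + 1) ≠ 0 := Nat.cast_add_one_ne_zero k
    have h3 : (k.factorial : ℂ) ≠ 0 := Nat.cast_ne_zero.mpr (Nat.factorial_ne_zero k)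
    have h4 : E u (lf lam ^ (k + 1) * (E u ^ k) G) =
        lf lam ^ (k + 1) * (E u ^ (k + 1)) G + (k + 1 : ℂ) • (lf lam ^ k * (E u ^ k) G) := by
      have h0 : E u ((E u ^ k) G) = (E u ^ (k + 1)) G := by
        rw [pow_succ' (E u) k, Module.End.mul_apply]
      rw [E_apply, Derivation.leibniz, ← E_apply, ← E_apply, E_lf_pow, hlam, one_smul, h0,
        smul_eq_mul, smul_eq_mul, MvPolynomial.smul_eq_C_mul, MvPolynomial.smul_eq_C_mul]
      push_cast
      ring
    rw [map_smul, h4, smul_add, smul_smul, hk]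
    have h5 : (-1 : ℂ) ^ k / ((k + 1) * (k.factorial : ℂ)) * (k + 1) = (-1) ^ k / (k.factorial : ℂ) := by
      field_simp
    rw [h5, pow_succ (-1 : ℂ) k]
    have h6 : (-1 : ℂ) ^ k * (-1) / ((k + 1) * (k.factorial : ℂ)) =
        -((-1 : ℂ) ^ k / ((k + 1) * (k.factorial : ℂ))) := by ring
    rw [h6, neg_smul, sub_neg_eq_add]
    exact add_comm _ _
  unfold ant
  rw [map_sum, Finset.sum_congr rfl fun k _ => h1 k, Finset.sum_range_sub']
  rw [Epow_hom_zero u (d + 1) (by omega) hG]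
  simp

theorem Epow_ant {u lam w : Fin (n + 1) → ℂ} (hw : ∑ i, lam i * w i = 0) (c d : ℕ)
    (G : MvPolynomial (Fin (n + 1)) ℂ) : (E w ^ c) (ant u lam d G) = ant u lam d ((E w ^ c) G) := by
  unfold ant
  rw [map_sum]
  refine Finset.sum_congr rfl fun k _ => ?_
  have h0 : E w (lf lam ^ (k + 1)) = 0 := by
    rw [E_lf_pow, hw, zero_smul, smul_zero]
  rw [map_smul, Epow_mul_const w h0, Epow_comm]

/-- Surjectivity of `D_{v j} ^ c` for a vector `v j` with a dual linear form. -/
theorem surj_dual {j : ι} {lam : Fin (n + 1) → ℂ} (hj : ∑ k, lam k * v j k = 1)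
    (hS : ∀ i ∈ S, ∑ k, lam k * v i k = 0) (c : ℕ) :
    ∀ G ∈ KK v b S d, ∃ F ∈ KK v b S (d + c), (E (v j) ^ c) F = G := by
  induction c with
  | zero => exact fun G hG => ⟨G, hG, by simp⟩
  | succ c ih =>
    intro G hG
    obtain ⟨F, hF, hFG⟩ := ih G hG
    refine ⟨ant (v j) lam (d + c) F, ⟨ant_hom _ _ hF.1, fun i hi => ?_⟩, ?_⟩
    · rw [Epow_ant (hS i hi), hF.2 i hi]
      unfold ant
      simp
    · rw [pow_succ, Module.End.mul_apply, E_ant hj hF.1, hFG]

/-! ### The dimension -/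

/-- The number of monomials of degree `d - x` in `n + 1` variables. -/
def cc (n d x : ℕ) : ℤ := if x ≤ d then ((n + (d - x)).choose n : ℤ) else 0

/-- The alternating sum. -/
def FK (n : ℕ) (b : ι → ℕ) (S : Finset ι) (d : ℕ) : ℤ :=
  ∑ I ∈ S.powerset, (-1) ^ I.card * cc n d (∑ i ∈ I, b i)

theorem FK_insert {j : ι} (hj : j ∉ S) :
    FK n b (insert j S) d = FK n b S d - (if b j ≤ d then FK n b S (d - b j) else 0) := by
  unfold FK
  rw [Finset.sum_powerset_insert hj, sub_eq_add_neg]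
  congr 1
  have h1 : ∀ I ∈ S.powerset, (-1 : ℤ) ^ (insert j I).card * cc n d (∑ i ∈ insert j I, b i) =
      - ((-1) ^ I.card * cc n d (b j + ∑ i ∈ I, b i)) := by
    intro I hI
    have hjI : j ∉ I := fun h => hj (Finset.mem_powerset.mp hI h)
    rw [Finset.card_insert_of_notMem hjI, Finset.sum_insert hjI]
    ring
  rw [Finset.sum_congr rfl h1, Finset.sum_neg_distrib]
  congr 1
  split_ifs with h
  · refine Finset.sum_congr rfl fun I _ => ?_
    congr 1
    unfold cc
    by_cases h2 : b j + ∑ i ∈ I, b i ≤ d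
    · rw [if_pos h2, if_pos (by omega), Nat.sub_sub]
    · rw [if_neg h2, if_neg (by omega)]
  · refine Finset.sum_eq_zero fun I _ => ?_
    unfold cc
    rw [if_neg (by omega), mul_zero]

theorem FK_empty : FK n b ∅ d = ((n + d).choose n : ℤ) := by
  simp [FK, cc]

/-- The dimension of `KK` for vectors with a dual system of linear forms. -/
theorem finrank_KK {lam : ι → Fin (n + 1) → ℂ} (S : Finset ι)
    (hdual : ∀ i ∈ S, ∀ j ∈ S, ∑ k, lam i k * v j k = if i = j then 1 else 0) (d : ℕ) :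
    (Module.finrank ℂ (KK v b S d) : ℤ) = FK n b S d := by
  induction S using Finset.induction_on generalizing d with
  | empty => rw [KK_empty, finrank_hom, FK_empty]
  | insert j S hj ih =>
    have ih' := ih (fun i hi k hk =>
      hdual i (Finset.mem_insert_of_mem hi) k (Finset.mem_insert_of_mem hk))
    rw [FK_insert hj]
    split_ifs with h
    · obtain ⟨e, rfl⟩ : ∃ e, d = e + b j := ⟨d - b j, by omega⟩
      have h1 := finrank_insert_eq (v := v) (b := b) (S := S) (d := e) (j := j)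
        (surj_dual (lam := lam j)
          (by rw [hdual j (Finset.mem_insert_self _ _) j (Finset.mem_insert_self _ _), if_pos rfl])
          (fun i hi => by
            rw [hdual j (Finset.mem_insert_self _ _) i (Finset.mem_insert_of_mem hi),
              if_neg (by rintro rfl; exact hj hi)]) (b j))
      rw [Nat.add_sub_cancel, ← ih', ← ih', ← h1]
      push_cast
      ring
    · rw [KK_insert_small (by omega), ih', sub_zero]

end Pool.Agent.KS6_98.FI
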