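import Pool.Agent.KS6_98.FI.A

set_option autoImplicit false
set_option linter.unusedSectionVars false

/-!
# The numbers: alternating sums, restricted compositions, linear virtual dimensions
-/

namespace Pool.Agent.KS6_98.FI

open Pool.Agent.TH142.WF (kI lvdim ldim ldim_zero ldim_le)

/-! ### Restricted compositions -/

/-- The number of monomials of degree `x` in `N` variables. -/
def ccz (N : ℕ) (x : ℤ) : ℤ := if 0 ≤ x then (Nat.multichoose N x.toNat : ℤ) else 0

/-- Alternating sums along a list. -/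
def GG (N : ℕ) : List ℕ → ℤ → ℤ
  | [], x => ccz N x
  | c :: l, x => GG N l x - GG N l (x - c)

/-- The number of `a` with `0 ≤ a_i < c_i` and sum `x`. -/
def Hl : List ℕ → ℤ → ℤ
  | [], x => if x = 0 then 1 else 0
  | c :: l, x => ∑ t ∈ Finset.range c, Hl l (x - t)

theorem ccz_neg {N : ℕ} {x : ℤ} (hx : x < 0) : ccz N x = 0 := if_neg (by omega)

theorem ccz_diff (N : ℕ) (x : ℤ) : ccz (N + 1) x - ccz (N + 1) (x - 1) = ccz N x := by
  rcases lt_trichotomy x 0 with h | rfl | h
  · rw [ccz_neg h, ccz_neg (by omega), ccz_neg h, sub_zero]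
  · simp [ccz]
  · obtain ⟨k, rfl⟩ : ∃ k : ℕ, x = k + 1 := ⟨(x - 1).toNat, by omega⟩
    unfold ccz
    rw [if_pos (by omega), if_pos (by omega), if_pos (by omega),
      show ((k : ℤ) + 1).toNat = k + 1 by omega, show ((k : ℤ) + 1 - 1).toNat = k by omega,
      Nat.multichoose_succ_succ]
    push_cast
    ring

theorem GG_neg {N : ℕ} (l : List ℕ) {x : ℤ} (hx : x < 0) : GG N l x = 0 := by
  induction l generalizing x with
  | nil => exact ccz_neg hx
  | cons c l ih =>
    change GG N l x - GG N l (x - c) = 0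
    rw [ih hx, ih (by omega), sub_zero]

theorem GG_diff (N : ℕ) (l : List ℕ) (x : ℤ) :
    GG (N + 1) l x - GG (N + 1) l (x - 1) = GG N l x := by
  induction l generalizing x with
  | nil => exact ccz_diff N x
  | cons c l ih =>
    change GG (N + 1) l x - GG (N + 1) l (x - c) -
      (GG (N + 1) l (x - 1) - GG (N + 1) l (x - 1 - c)) = GG N l x - GG N l (x - c)
    rw [← ih x, ← ih (x - c), show x - 1 - (c : ℤ) = x - c - 1 by ring]
    ring

theorem Hl_neg (l : List ℕ) {x : ℤ} (hx : x < 0) : Hl l x = 0 := by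
  induction l generalizing x with
  | nil => exact if_neg (by omega)
  | cons c l ih => exact Finset.sum_eq_zero fun t _ => ih (by omega)

theorem Hl_diff (c : ℕ) (l : List ℕ) (x : ℤ) :
    Hl (c :: l) x - Hl (c :: l) (x - 1) = Hl l x - Hl l (x - c) := by
  change ∑ t ∈ Finset.range c, Hl l (x - t) - ∑ t ∈ Finset.range c, Hl l (x - 1 - t) = _
  rw [← Finset.sum_sub_distrib]
  have h := Finset.sum_range_sub' (fun t : ℕ => Hl l (x - t)) c
  rw [Finset.sum_congr rfl fun t _ => by
    rw [show x - 1 - (t : ℤ) = x - ((t + 1 : ℕ) : ℤ) by push_cast; ring], h]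
  simp

theorem eq_of_diff {f g : ℤ → ℤ} (h0 : ∀ x, x < 0 → f x = g x)
    (h : ∀ x, f x - f (x - 1) = g x - g (x - 1)) (x : ℤ) : f x = g x := by
  rcases lt_or_ge x 0 with hx | hx
  · exact h0 x hx
  · obtain ⟨k, rfl⟩ := Int.eq_ofNat_of_zero_le hx
    induction k with
    | zero =>
      have := h 0
      rw [h0 (0 - 1) (by omega)] at this
      simpa using this
    | succ k ih =>
      have h1 := h ((k + 1 : ℕ) : ℤ)
      rw [show (((k + 1 : ℕ) : ℤ) - 1) = k by push_cast; ring, ih (by omega)] at h1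
      linarith

theorem GG_eq_Hl (l : List ℕ) (x : ℤ) : GG l.length l x = Hl l x := by
  induction l generalizing x with
  | nil =>
    change ccz 0 x = _
    rcases lt_trichotomy x 0 with h | rfl | h
    · rw [ccz_neg h, Hl_neg _ h]
    · simp [ccz, Hl]
    · obtain ⟨k, rfl⟩ : ∃ k : ℕ, x = k + 1 := ⟨(x - 1).toNat, by omega⟩
      unfold ccz Hl
      rw [if_pos (by omega), if_neg (by omega), show ((k : ℤ) + 1).toNat = k + 1 by omega,
        Nat.multichoose_zero_succ]
      rfl
  | cons c l ih =>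
    refine eq_of_diff (fun y hy => by rw [GG_neg _ hy, Hl_neg _ hy]) (fun y => ?_) x
    rw [Hl_diff, ← ih, ← ih, List.length_cons, GG_diff]
    rfl

/-- The largest possible sum. -/
def top (l : List ℕ) : ℤ := (l.map fun c : ℕ => (c : ℤ) - 1).sum

theorem top_cons (c : ℕ) (l : List ℕ) : top (c :: l) = (c - 1) + top l := by
  simp [top]

theorem Hl_nonneg (l : List ℕ) (x : ℤ) : 0 ≤ Hl l x := by
  induction l generalizing x with
  | nil =>
    unfold Hl
    split_ifs <;> norm_num
  | cons c l ih => exact Finset.sum_nonneg fun t _ => ih _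

theorem Hl_big (l : List ℕ) {x : ℤ} (hx : top l < x) : Hl l x = 0 := by
  induction l generalizing x with
  | nil =>
    unfold Hl
    rw [if_neg]
    simp only [top, List.map_nil, List.sum_nil] at hx
    omega
  | cons c l ih =>
    refine Finset.sum_eq_zero fun t ht => ih ?_
    rw [top_cons] at hx
    rw [Finset.mem_range] at ht
    omega

theorem top_nonneg {l : List ℕ} (hl : ∀ c ∈ l, 1 ≤ c) : 0 ≤ top l := by
  induction l with
  | nil => simp [top]
  | cons c l ih =>
    rw [top_cons]
    have h1 := hl c (List.mem_cons_self ..)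
    have h2 := ih fun e he => hl e (List.mem_cons_of_mem _ he)
    omega

theorem Hl_pos {l : List ℕ} (hl : ∀ c ∈ l, 1 ≤ c) {x : ℤ} (h0 : 0 ≤ x) (hx : x ≤ top l) :
    0 < Hl l x := by
  induction l generalizing x with
  | nil =>
    simp only [top, List.map_nil, List.sum_nil] at hx
    unfold Hl
    rw [if_pos (by omega)]
    norm_num
  | cons c l ih =>
    have hc := hl c (List.mem_cons_self ..)
    have hl' : ∀ e ∈ l, 1 ≤ e := fun e he => hl e (List.mem_cons_of_mem _ he)
    have ht := top_nonneg hl'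
    rw [top_cons] at hx
    refine Finset.sum_pos' (fun t _ => Hl_nonneg _ _) ?_
    rcases le_total x (top l) with h | h
    · exact ⟨0, Finset.mem_range.mpr (by omega), ih hl' (by simpa using h0) (by simpa using h)⟩
    · refine ⟨(x - top l).toNat, Finset.mem_range.mpr (by omega), ih hl' (by omega) (by omega)⟩

/-- Symmetry. -/
theorem Hl_symm {l : List ℕ} (hl : ∀ c ∈ l, 1 ≤ c) (x : ℤ) : Hl l (top l - x) = Hl l x := by
  induction l generalizing x with
  | nil => simp [Hl, top]
  | cons c l ih =>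
    have hl' : ∀ e ∈ l, 1 ≤ e := fun e he => hl e (List.mem_cons_of_mem _ he)
    have hc := hl c (List.mem_cons_self ..)
    change ∑ t ∈ Finset.range c, Hl l (top (c :: l) - x - t) = ∑ t ∈ Finset.range c, Hl l (x - t)
    rw [← Finset.sum_range_reflect]
    refine Finset.sum_congr rfl fun t ht => ?_
    rw [Finset.mem_range] at ht
    rw [← ih hl' (x - t), top_cons]
    congr 1
    have : ((c - 1 - t : ℕ) : ℤ) = c - 1 - t := by omega
    rw [this]
    ring

/-! ### Strict unimodality -/

/-- The equal list. -/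
def rl (b N : ℕ) : List ℕ := List.replicate N b

theorem top_rl (b N : ℕ) : top (rl b N) = N * ((b : ℤ) - 1) := by
  induction N with
  | zero => simp [rl, top]
  | succ N ih =>
    rw [rl, List.replicate_succ, top_cons]
    rw [rl] at ih
    rw [ih]
    push_cast
    ring

theorem rl_pos {b N : ℕ} (hb : 1 ≤ b) : ∀ c ∈ rl b N, 1 ≤ c := by
  intro c hc
  rw [List.eq_of_mem_replicate hc]
  exact hb

theorem strict_of_inc {b N : ℕ} (hb : 1 ≤ b)
    (hinc : ∀ u : ℤ, 1 ≤ u → 2 * u ≤ N * ((b : ℤ) - 1) → Hl (rl b N) (u - 1) < Hl (rl b N) u)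
    {x y : ℤ} (hxy : x < y) (h : x + y < N * ((b : ℤ) - 1)) (h0 : 0 ≤ y)
    (hy : y ≤ N * ((b : ℤ) - 1)) : Hl (rl b N) x < Hl (rl b N) y := by
  rcases lt_or_ge x 0 with hx | hx
  · rw [Hl_neg _ hx]
    exact Hl_pos (rl_pos hb) h0 (by rwa [top_rl])
  have chain : ∀ k : ℕ, 2 * (x + k + 1) ≤ N * ((b : ℤ) - 1) →
      Hl (rl b N) x < Hl (rl b N) (x + k + 1) := by
    intro k
    induction k with
    | zero =>
      intro h1
      have := hinc (x + 1) (by omega) (by simpa using h1)
      simpa using this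
    | succ k ih =>
      intro h1
      have h2 := ih (by push_cast at h1; linarith)
      have h3 := hinc (x + (k + 1 : ℕ) + 1) (by omega) h1
      refine h2.trans ?_
      rw [show x + ((k + 1 : ℕ) : ℤ) + 1 - 1 = x + k + 1 by push_cast; ring] at h3
      exact h3
  rcases le_or_gt (2 * y) (N * ((b : ℤ) - 1)) with h2 | h2
  · obtain ⟨k, hk⟩ : ∃ k : ℕ, y = x + k + 1 := ⟨(y - x - 1).toNat, by omega⟩
    rw [hk] at h2 ⊢
    exact chain k h2
  · have hs := Hl_symm (rl_pos (N := N) hb) y
    rw [top_rl] at hs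
    rw [← hs]
    obtain ⟨k, hk⟩ : ∃ k : ℕ, N * ((b : ℤ) - 1) - y = x + k + 1 :=
      ⟨(N * ((b : ℤ) - 1) - y - x - 1).toNat, by omega⟩
    rw [hk]
    exact chain k (by omega)

theorem inc {b N : ℕ} (hb : 1 ≤ b) (hN : 2 ≤ N) :
    ∀ u : ℤ, 1 ≤ u → 2 * u ≤ N * ((b : ℤ) - 1) → Hl (rl b N) (u - 1) < Hl (rl b N) u := by
  induction N, hN using Nat.le_induction with
  | base =>
    intro u h1 h2
    have h3 := Hl_diff b (rl b 1) u
    have e : b :: rl b 1 = rl b 2 := rfl
    rw [e] at h3
    have h4 : Hl (rl b 1) (u - b) = 0 := Hl_neg _ (by push_cast at h2; linarith)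
    have h5 : 0 < Hl (rl b 1) u :=
      Hl_pos (rl_pos hb) (by omega) (by rw [top_rl]; push_cast at h2 ⊢; linarith)
    rw [h4] at h3
    linarith
  | succ N hN ih =>
    intro u h1 h2
    have h3 := Hl_diff b (rl b N) u
    have e : b :: rl b N = rl b (N + 1) := rfl
    rw [e] at h3
    have hb' : (0 : ℤ) ≤ (b : ℤ) - 1 := by omega
    have hN' : (2 : ℤ) ≤ N := by exact_mod_cast hN
    push_cast at h2
    have h4 := strict_of_inc hb ih (x := u - b) (y := u) (by omega) (by nlinarith) (by omega)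
      (by nlinarith)
    linarith

theorem strict {b N : ℕ} (hb : 1 ≤ b) (hN : 2 ≤ N) {x y : ℤ} (hxy : x < y)
    (h : x + y < N * ((b : ℤ) - 1)) (h0 : 0 ≤ y) (hy : y ≤ N * ((b : ℤ) - 1)) :
    Hl (rl b N) x < Hl (rl b N) y :=
  strict_of_inc hb (inc hb hN) hxy h h0 hy

/-! ### Alternating sums over sets -/

variable {n : ℕ} {ι : Type*} [DecidableEq ι]

theorem FK_list (n : ℕ) (b : ι → ℕ) (l : List ι) (hl : l.Nodup) (d : ℕ) :
    FK n b l.toFinset d = GG (n + 1) (l.map b) d := by
  induction l generalizing d with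
  | nil =>
    rw [List.toFinset_nil, FK_empty]
    change _ = ccz (n + 1) d
    unfold ccz
    rw [if_pos (by omega), Int.toNat_natCast, Nat.multichoose_eq, show n + 1 + d - 1 = n + d by omega,
      Nat.choose_symm_add]
  | cons j l ih =>
    rw [List.nodup_cons] at hl
    have ih' := ih hl.2
    rw [List.toFinset_cons, FK_insert (by rw [List.mem_toFinset]; exact hl.1), List.map_cons]
    change _ = GG (n + 1) (l.map b) d - GG (n + 1) (l.map b) (d - b j)
    rw [ih']
    congr 1
    split_ifs with h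
    · rw [ih', Nat.cast_sub h]
    · rw [GG_neg _ (by omega)]

theorem FK_eq_Hl {b : ι → ℕ} {S : Finset ι} (hS : S.card = n + 1) (d : ℕ) :
    FK n b S d = Hl (S.toList.map b) d := by
  have h := FK_list n b S.toList S.nodup_toList d
  rw [Finset.toList_toFinset] at h
  rw [h, ← GG_eq_Hl]
  congr 1
  rw [List.length_map, Finset.length_toList, hS]

theorem top_map (b : ι → ℕ) (S : Finset ι) : top (S.toList.map b) = ∑ i ∈ S, ((b i : ℤ) - 1) := by
  unfold top
  rw [List.map_map, ← Finset.sum_map_toList S (fun i => ((b i : ℤ) - 1))]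
  rfl

theorem FK_const {b : ℕ} {S : Finset ι} (hS : S.card = n + 1) (d : ℕ) :
    FK n (fun _ => b) S d = Hl (rl b (n + 1)) d := by
  rw [FK_eq_Hl hS]
  congr 1
  rw [List.map_const', Finset.length_toList, hS]
  rfl

/-! ### Linear virtual dimensions -/

theorem lv_term {n d s : ℕ} {m : Fin s → ℕ} (hm : ∀ i, m i ≤ d + 1) (I : Finset (Fin s))
    (hI : I.card ≤ n) :
    ((n + kI d m I - I.card).choose n : ℤ) = cc n d (∑ i ∈ I, (d + 1 - m i)) := by
  have h1 : ∑ i ∈ I, (d + 1 - m i) + ∑ i ∈ I, m i = I.card * (d + 1) := by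
    rw [← Finset.sum_add_distrib, ← smul_eq_mul, ← Finset.sum_const]
    exact Finset.sum_congr rfl fun i _ => Nat.sub_add_cancel (hm i)
  unfold cc kI
  rcases Finset.eq_empty_or_nonempty I with rfl | hne
  · simp
  have hc : 1 ≤ I.card := hne.card_pos
  obtain ⟨c, hc'⟩ : ∃ c, I.card = c + 1 := ⟨I.card - 1, by omega⟩
  rw [if_neg hne.ne_empty]
  rw [hc'] at h1 hI ⊢
  have e1 : (c + 1) * (d + 1) = c * d + d + c + 1 := by ring
  rw [e1] at h1
  rw [show c + 1 - 1 = c by omega]
  split_ifs with h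
  · congr 2
    omega
  · rw [Nat.choose_eq_zero_of_lt (by omega)]
    rfl

/-- The linear virtual dimension as an alternating sum over the small sets. -/
theorem lvdim_eq {n d s : ℕ} {m : Fin s → ℕ} (hm : ∀ i, m i ≤ d + 1) :
    lvdim n d m = ∑ c ∈ Finset.range (min n s + 1),
      ∑ I ∈ Finset.powersetCard c (Finset.univ : Finset (Fin s)),
        (-1) ^ I.card * cc n d (∑ i ∈ I, (d + 1 - m i)) := by
  unfold lvdim
  refine Finset.sum_congr rfl fun c hc => Finset.sum_congr rfl fun I hI => ?_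
  rw [Finset.mem_range] at hc
  rw [Finset.mem_powersetCard] at hI
  rw [← lv_term hm I (by omega), hI.2]

theorem FK_univ {s : ℕ} (b : Fin s → ℕ) (d : ℕ) :
    FK n b Finset.univ d = ∑ c ∈ Finset.range (s + 1),
      ∑ I ∈ Finset.powersetCard c (Finset.univ : Finset (Fin s)),
        (-1) ^ I.card * cc n d (∑ i ∈ I, b i) := by
  unfold FK
  rw [Finset.sum_powerset, Finset.card_univ, Fintype.card_fin]

/-- If the sums over more than `n` indices are large, the truncation does not matter. -/
theorem lvdim_full {n d s : ℕ} {m : Fin s → ℕ} (hm : ∀ i, m i ≤ d + 1)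
    (h : ∀ I : Finset (Fin s), n + 1 ≤ I.card → d < ∑ i ∈ I, (d + 1 - m i)) :
    lvdim n d m = FK n (fun i => d + 1 - m i) Finset.univ d := by
  rw [lvdim_eq hm, FK_univ]
  refine Finset.sum_subset (Finset.range_subset_range.mpr (by omega)) fun c hc hc' => ?_
  rw [Finset.mem_range] at hc hc'
  refine Finset.sum_eq_zero fun I hI => ?_
  rw [Finset.mem_powersetCard] at hI
  unfold cc
  rw [if_neg (by have := h I (by omega); omega), mul_zero]

/-- `n + 1` points: only the last term is cut off. -/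
theorem lvdim_succ {n d : ℕ} {m : Fin (n + 1) → ℕ} (hm : ∀ i, m i ≤ d + 1) :
    lvdim n d m = FK n (fun i => d + 1 - m i) Finset.univ d +
      (-1) ^ n * cc n d (∑ i, (d + 1 - m i)) := by
  rw [lvdim_eq hm, FK_univ, Finset.sum_range_succ _ (n + 1), show min n (n + 1) = n by omega]
  have h : Finset.powersetCard (n + 1) (Finset.univ : Finset (Fin (n + 1))) = {Finset.univ} := by
    have := Finset.powersetCard_self (Finset.univ : Finset (Fin (n + 1)))
    rwa [Finset.card_univ, Fintype.card_fin] at this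
  rw [h, Finset.sum_singleton, Finset.card_univ, Fintype.card_fin, pow_succ]
  ring

/-- Points of multiplicity zero can be left out. -/
theorem FK_support {s : ℕ} {b : Fin s → ℕ} {S : Finset (Fin s)} {d : ℕ}
    (h : ∀ i, i ∉ S → d < b i) : FK n b Finset.univ d = FK n b S d := by
  unfold FK
  symm
  refine Finset.sum_subset (Finset.powerset_mono.mpr (Finset.subset_univ S)) fun I _ hI => ?_
  rw [Finset.mem_powerset, Finset.not_subset] at hI
  obtain ⟨i, hi, hiS⟩ := hI
  have h1 := h i hiS
  have h2 : b i ≤ ∑ i ∈ I, b i := Finset.single_le_sum (fun _ _ => Nat.zero_le _) hi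
  unfold cc
  rw [if_neg (by omega), mul_zero]

end Pool.Agent.KS6_98.FI
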