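import Pool.Agent.KS6_98.FI.B
import Pool.Graph.R_seed8.TH142.WF.Small

set_option autoImplicit false
set_option linter.unusedSectionVars false

/-!
# Subsystems of negative linear virtual dimension
-/

namespace Pool.Agent.KS6_98.FI

open Pool.Agent.TH142.WF (kI lvdim ldim ldim_zero ldim_le lvdim_two lvdim_of_small)

/-- The first `t` indices. -/
def fst (s t : ℕ) : Finset (Fin s) := Finset.univ.filter fun i => i.1 < t

theorem mem_fst {s t : ℕ} {i : Fin s} : i ∈ fst s t ↔ i.1 < t := by
  simp [fst]

theorem sum_fst {M : Type*} [AddCommMonoid M] {s t : ℕ} (ht : t ≤ s) (f : ℕ → M) :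
    ∑ i ∈ fst s t, f i.1 = ∑ k ∈ Finset.range t, f k := by
  unfold fst
  rw [Finset.sum_filter, Fin.sum_univ_eq_sum_range (fun k => if k < t then f k else 0) s,
    ← Finset.sum_filter]
  congr 1
  ext k
  simp only [Finset.mem_filter, Finset.mem_range]
  omega

theorem card_fst {s t : ℕ} (ht : t ≤ s) : (fst s t).card = t := by
  rw [Finset.card_eq_sum_ones, sum_fst ht (fun _ => 1)]
  simp

theorem fst_succ {s t : ℕ} (ht : t < s) : fst s (t + 1) = insert (⟨t, ht⟩ : Fin s) (fst s t) := by
  ext i
  rw [mem_fst, Finset.mem_insert, mem_fst, Fin.ext_iff]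
  change i.1 < t + 1 ↔ i.1 = t ∨ i.1 < t
  omega

theorem notMem_fst {s t : ℕ} (ht : t < s) : (⟨t, ht⟩ : Fin s) ∉ fst s t := by
  rw [mem_fst]
  exact lt_irrefl _

theorem FK_congr {n : ℕ} {ι : Type*} [DecidableEq ι] {b c : ι → ℕ} {S : Finset ι}
    (h : ∀ i ∈ S, b i = c i) (d : ℕ) : FK n b S d = FK n c S d := by
  unfold FK
  refine Finset.sum_congr rfl fun I hI => ?_
  rw [Finset.mem_powerset] at hI
  rw [Finset.sum_congr rfl fun i hi => h i (hI hi)]

/-- The first family of negative subsystems. -/
theorem neg_one {n d s m : ℕ} (hn : 2 ≤ n) (hs : n + 2 ≤ s) (h : (n + 1) * (d - m) + 1 ≤ d) :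
    ldim n d (fun _ : Fin s => m) = 0 := by
  obtain ⟨e, rfl⟩ : ∃ e, d = e + 1 := ⟨d - 1, by omega⟩
  obtain ⟨q, hq⟩ : ∃ q, q = e / (n + 1) := ⟨_, rfl⟩
  obtain ⟨r, hr⟩ : ∃ r, r = e % (n + 1) := ⟨_, rfl⟩
  have he : (n + 1) * q + r = e := by rw [hq, hr]; exact Nat.div_add_mod e (n + 1)
  have hrn : r < n + 1 := by rw [hr]; exact Nat.mod_lt _ (by omega)
  have hqe : q ≤ e := by nlinarith
  have hmq : e + 1 - m ≤ q := by
    rw [hq, Nat.le_div_iff_mul_le (by omega)]
    rw [mul_comm]
    omega
  -- the exponents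
  let bb : ℕ → ℕ := fun k => if k < r then q + 2 else if k < n + 2 then q + 1 else e + 2
  let m' : Fin s → ℕ := fun i => e + 2 - bb i.1
  have hbb : ∀ k, bb k ≤ e + 2 := by
    intro k
    simp only [bb]
    split_ifs with h1 h2
    · have : 0 < r := by omega
      have : (n + 1) * q + r = e := he
      nlinarith
    · omega
    · exact le_rfl
  have hb : ∀ i : Fin s, e + 1 + 1 - m' i = bb i.1 := by
    intro i
    have := hbb i.1
    simp only [m']
    omega
  have hm' : ∀ i, m' i ≤ e + 1 + 1 := fun i => by simp only [m']; omega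
  refine ldim_zero m' (fun i => ?_) ?_
  · simp only [m', bb]
    split_ifs <;> omega
  -- the sums over more than `n` indices
  have hbig : ∀ I : Finset (Fin s), n + 1 ≤ I.card → e + 1 < ∑ i ∈ I, (e + 1 + 1 - m' i) := by
    intro I hI
    rw [Finset.sum_congr rfl fun i _ => hb i]
    have h1 : ∀ i : Fin s, q + 2 ≤ bb i.1 + (if i.1 < r then 0 else if i.1 < n + 2 then 1 else 0) := by
      intro i
      simp only [bb]
      split_ifs <;> omega
    have h2 : I.card * (q + 2) ≤ ∑ i ∈ I, bb i.1 +
        ∑ i ∈ I, (if i.1 < r then 0 else if i.1 < n + 2 then 1 else 0) := by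
      rw [← Finset.sum_add_distrib, ← smul_eq_mul]
      exact Finset.card_nsmul_le_sum _ _ _ fun i _ => h1 i
    have h3 : ∑ i ∈ I, (if i.1 < r then 0 else if i.1 < n + 2 then 1 else 0) ≤ n + 2 - r := by
      calc ∑ i ∈ I, (if i.1 < r then 0 else if i.1 < n + 2 then 1 else 0)
          ≤ ∑ i : Fin s, (if i.1 < r then 0 else if i.1 < n + 2 then 1 else 0) :=
            Finset.sum_le_sum_of_subset (Finset.subset_univ I)
        _ = ∑ k ∈ Finset.range s, (if k < r then 0 else if k < n + 2 then 1 else 0) :=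
            Fin.sum_univ_eq_sum_range (fun k => if k < r then 0 else if k < n + 2 then 1 else 0) s
        _ = ∑ k ∈ Finset.range s, (if k ∈ Finset.Ico r (n + 2) then 1 else 0) := by
            refine Finset.sum_congr rfl fun k _ => ?_
            simp only [Finset.mem_Ico]
            split_ifs <;> omega
        _ ≤ n + 2 - r := by
            rw [← Finset.sum_filter, ← Finset.card_eq_sum_ones, ← Nat.card_Ico]
            exact Finset.card_le_card fun k hk => (Finset.mem_filter.mp hk).2
    have h4 : (n + 1) * (q + 2) ≤ I.card * (q + 2) := Nat.mul_le_mul_right _ hI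
    have h5 : (n + 1) * (q + 2) = (n + 1) * q + 2 * (n + 1) := by ring
    omega
  rw [lvdim_full hm' hbig, FK_congr (c := fun i => bb i.1) (fun i _ => hb i),
    FK_support (S := fst s (n + 2))]
  swap
  · intro i hi
    rw [mem_fst] at hi
    simp only [bb]
    rw [if_neg (by omega), if_neg (by omega)]
    omega
  rw [fst_succ (show n + 1 < s by omega), FK_insert (notMem_fst _)]
  have hbj : bb (n + 1) = q + 1 := by
    simp only [bb]
    rw [if_neg (by omega), if_pos (by omega)]
  rw [show bb (⟨n + 1, by omega⟩ : Fin s).1 = q + 1 from hbj, if_pos (by omega)]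
  have hcard : (fst s (n + 1)).card = n + 1 := card_fst (by omega)
  rw [FK_eq_Hl hcard, FK_eq_Hl hcard]
  have htop : top ((fst s (n + 1)).toList.map fun i => bb i.1) = e := by
    rw [top_map, sum_fst (show n + 1 ≤ s by omega) (fun k => ((bb k : ℤ) - 1))]
    have h1 : ∀ k ∈ Finset.range (n + 1), ((bb k : ℤ) - 1) = q + (if k < r then 1 else 0) := by
      intro k hk
      rw [Finset.mem_range] at hk
      simp only [bb]
      split_ifs
      · push_cast; ring
      · push_cast; ring
      · omega
    rw [Finset.sum_congr rfl h1, Finset.sum_add_distrib, ← Finset.sum_filter]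
    have h2 : (Finset.range (n + 1)).filter (fun k => k < r) = Finset.range r := by
      ext k
      simp only [Finset.mem_filter, Finset.mem_range]
      omega
    rw [h2, Finset.sum_const, Finset.sum_const, Finset.card_range, Finset.card_range]
    rw [← he]
    push_cast
    ring
  have hpos : ∀ c ∈ (fst s (n + 1)).toList.map (fun i => bb i.1), 1 ≤ c := by
    intro c hc
    rw [List.mem_map] at hc
    obtain ⟨i, _, rfl⟩ := hc
    simp only [bb]
    split_ifs <;> omega
  rw [Hl_big _ (by rw [htop]; push_cast; omega)]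
  have := Hl_pos hpos (x := ((e + 1 - (q + 1) : ℕ) : ℤ)) (by omega) (by rw [htop]; omega)
  linarith

/-- The second family of negative subsystems. -/
theorem neg_two {n d s b : ℕ} (hn : 1 ≤ n) (hs : n + 2 ≤ s) (hb : 1 ≤ b)
    (hd : d ≤ (n + 1) * (b - 1)) (h2 : (n + 2) * (b - 1) + 2 ≤ 2 * d) :
    ldim n d (fun _ : Fin s => d + 1 - b) = 0 := by
  obtain ⟨a, rfl⟩ : ∃ a, b = a + 1 := ⟨b - 1, by omega⟩
  rw [Nat.add_sub_cancel] at hd h2
  have had : a + 1 ≤ d := by
    have e : (n + 2) * a = n * a + 2 * a := by ring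
    have : a ≤ n * a := Nat.le_mul_of_pos_left a hn
    omega
  let bb : ℕ → ℕ := fun k => if k < n + 2 then a + 1 else d + 1
  let m' : Fin s → ℕ := fun i => d + 1 - bb i.1
  have hb : ∀ i : Fin s, d + 1 - m' i = bb i.1 := by
    intro i
    simp only [m', bb]
    split_ifs <;> omega
  have hm' : ∀ i, m' i ≤ d + 1 := fun i => by simp only [m']; omega
  refine ldim_zero m' (fun i => ?_) ?_
  · simp only [m', bb]
    split_ifs <;> omega
  have hbig : ∀ I : Finset (Fin s), n + 1 ≤ I.card → d < ∑ i ∈ I, (d + 1 - m' i) := by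
    intro I hI
    rw [Finset.sum_congr rfl fun i _ => hb i]
    have h3 : I.card * (a + 1) ≤ ∑ i ∈ I, bb i.1 := by
      rw [← smul_eq_mul]
      refine Finset.card_nsmul_le_sum _ _ _ fun i _ => ?_
      simp only [bb]
      split_ifs <;> omega
    have h4 : (n + 1) * (a + 1) ≤ I.card * (a + 1) := Nat.mul_le_mul_right _ hI
    have h5 : (n + 1) * (a + 1) = (n + 1) * a + n + 1 := by ring
    omega
  rw [lvdim_full hm' hbig, FK_congr (c := fun i => bb i.1) (fun i _ => hb i),
    FK_support (S := fst s (n + 2))]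
  swap
  · intro i hi
    rw [mem_fst] at hi
    simp only [bb]
    rw [if_neg (by omega)]
    omega
  rw [FK_congr (c := fun _ => a + 1) (fun i hi => by
    rw [mem_fst] at hi
    simp only [bb]
    rw [if_pos hi])]
  rw [fst_succ (show n + 1 < s by omega), FK_insert (notMem_fst _), if_pos had]
  have hcard : (fst s (n + 1)).card = n + 1 := card_fst (by omega)
  rw [FK_const hcard, FK_const hcard]
  have hsym := Hl_symm (rl_pos (N := n + 1) (show 1 ≤ a + 1 by omega)) (d : ℤ)
  rw [top_rl] at hsym
  have hda : ((d : ℤ)) ≤ (n + 1) * a := by exact_mod_cast hd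
  have hdb : ((n : ℤ) + 2) * a + 2 ≤ 2 * d := by exact_mod_cast h2
  have hc : (((d - (a + 1) : ℕ) : ℤ)) = d - a - 1 := by omega
  have hst := strict (b := a + 1) (N := n + 1) (by omega) (by omega)
    (x := ((n + 1 : ℕ) : ℤ) * (((a + 1 : ℕ) : ℤ) - 1) - d) (y := ((d - (a + 1) : ℕ) : ℤ))
    (by rw [hc]; push_cast; linarith) (by rw [hc]; push_cast; linarith) (by omega)
    (by rw [hc]; push_cast; linarith)
  rw [hsym] at hst
  linarith

/-- For at least `n + 2` points the linear expected dimension is `0` beyond the threshold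
`(n + 2) m ≥ n d + 2`. -/
theorem ldim_beyond {n d s m : ℕ} (hn : 2 ≤ n) (hs : n + 2 ≤ s) (hd : 1 ≤ d)
    (h : n * d + 2 ≤ (n + 2) * m) : ldim n d (fun _ : Fin s => m) = 0 := by
  rcases Nat.lt_or_ge ((n + 1) * (d - m)) d with h1 | h1
  · exact neg_one hn hs h1
  · have hmd : m < d := by
      by_contra hc
      rw [Nat.sub_eq_zero_of_le (by omega)] at h1
      omega
    have h2 := neg_two (n := n) (d := d) (s := s) (b := d + 1 - m) (by omega) hs (by omega)
      (by rwa [show d + 1 - m - 1 = d - m by omega])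
      (by
        rw [show d + 1 - m - 1 = d - m by omega]
        obtain ⟨t, ht⟩ : ∃ t, d = m + t := ⟨d - m, by omega⟩
        subst ht
        rw [show m + t - m = t by omega]
        have e1 : (n + 2) * m = n * m + 2 * m := by ring
        have e2 : n * (m + t) = n * m + n * t := by ring
        have e3 : (n + 2) * t = n * t + 2 * t := by ring
        omega)
    rwa [show d + 1 - (d + 1 - m) = m by omega] at h2

/-- Points of multiplicity at least `d + 2`. -/
theorem ldim_huge {n d s m : ℕ} (hn : 2 ≤ n) (hs : 1 ≤ s) (hsn : s ≤ n + 1) (hd : 1 ≤ d)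
    (hm : d + 2 ≤ m) : ldim n d (fun _ : Fin s => m) = 0 := by
  obtain ⟨k, rfl⟩ : ∃ k, n = k + 2 := ⟨n - 2, by omega⟩
  let i0 : Fin s := ⟨0, by omega⟩
  let m' : Fin s → ℕ := fun i => if i = i0 then d + 2 else 0
  have hsum : ∀ I : Finset (Fin s), ∑ i ∈ I, m' i = if i0 ∈ I then d + 2 else 0 := by
    intro I
    simp only [m']
    rw [Finset.sum_ite_eq']
  refine ldim_zero m' (fun i => ?_) ?_
  · simp only [m']
    split_ifs <;> omega
  have hch : (k + 2 + d).choose (k + 2) + (s - 1) < (k + 2 + (d + 2) - 1).choose (k + 2) := by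
    rw [show k + 2 + (d + 2) - 1 = (k + 2 + d) + 1 by omega, Nat.choose_succ_succ' _ (k + 1)]
    have h1 : (k + 2 + 1).choose (k + 1) ≤ (k + 2 + d).choose (k + 1) :=
      Nat.choose_le_choose _ (by omega)
    rw [Nat.choose_succ_succ' _ k] at h1
    have h2 : (k + 2).choose (k + 1) = k + 2 := Nat.choose_succ_self_right (k + 1)
    have h3 : 0 < (k + 2).choose k := Nat.choose_pos (by omega)
    change _ < (k + 2 + d).choose (k + 1) + (k + 2 + d).choose (k + 2)
    omega
  have hkbig : ∀ I : Finset (Fin s), 3 ≤ I.card → kI d m' I < I.card := by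
    intro I hI
    have hne : I ≠ ∅ := by
      rintro rfl
      simp at hI
    unfold kI
    rw [if_neg hne, hsum]
    have h2 : 2 * d ≤ (I.card - 1) * d := Nat.mul_le_mul_right _ (by omega)
    split_ifs <;> omega
  have hsing : ∑ i, ((k + 2 + m' i - 1).choose (k + 2) : ℤ) =
      ((k + 2 + (d + 2) - 1).choose (k + 2) : ℤ) := by
    rw [Finset.sum_eq_single i0]
    · simp only [m', if_pos]
    · intro i _ hi
      simp only [m']
      rw [if_neg hi, Nat.choose_eq_zero_of_lt (by omega)]
      rfl
    · intro h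
      exact absurd (Finset.mem_univ _) h
  have hchZ : ((k + 2 + d).choose (k + 2) : ℤ) + ((s - 1 : ℕ) : ℤ) <
      ((k + 2 + (d + 2) - 1).choose (k + 2) : ℤ) := by exact_mod_cast hch
  rcases Nat.lt_or_ge s 2 with h2 | h2
  · rw [lvdim_of_small (by omega) hs]
    · rw [hsing]
      have : (0 : ℤ) ≤ ((s - 1 : ℕ) : ℤ) := by positivity
      linarith
    · intro I hI
      have h3 : I.card ≤ s := by
        simpa using Finset.card_le_univ I
      omega
  · rw [lvdim_two (by omega) h2 _ hkbig, hsing]
    have hpairs : ∑ I ∈ Finset.powersetCard 2 (Finset.univ : Finset (Fin s)),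
        ((k + 2 + kI d m' I - 2).choose (k + 2) : ℤ) ≤ ((s - 1 : ℕ) : ℤ) := by
      have h3 : ∀ I ∈ Finset.powersetCard 2 (Finset.univ : Finset (Fin s)),
          ((k + 2 + kI d m' I - 2).choose (k + 2) : ℤ) = if i0 ∈ I then 1 else 0 := by
        intro I hI
        rw [Finset.mem_powersetCard] at hI
        have hne : I ≠ ∅ := by
          rintro rfl
          simp at hI
        unfold kI
        rw [if_neg hne, hsum, hI.2]
        split_ifs
        · rw [show k + 2 + (d + 2 - (2 - 1) * d) - 2 = k + 2 by omega, Nat.choose_self]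
          rfl
        · rw [Nat.choose_eq_zero_of_lt (by omega)]
          rfl
      rw [Finset.sum_congr rfl h3, ← Finset.sum_filter, Finset.sum_const, nsmul_eq_mul, mul_one]
      have h4 : (Finset.powersetCard 2 (Finset.univ : Finset (Fin s))).filter (fun I => i0 ∈ I) ⊆
          (Finset.univ.erase i0).image fun j => {i0, j} := by
        intro I hI
        rw [Finset.mem_filter, Finset.mem_powersetCard] at hI
        obtain ⟨⟨_, hI2⟩, hI0⟩ := hI
        obtain ⟨x, y, hxy, rfl⟩ := Finset.card_eq_two.mp hI2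
        rw [Finset.mem_insert, Finset.mem_singleton] at hI0
        rw [Finset.mem_image]
        rcases hI0 with h | h
        · exact ⟨y, Finset.mem_erase.mpr ⟨by rw [h]; exact hxy.symm, Finset.mem_univ _⟩, by rw [h]⟩
        · exact ⟨x, Finset.mem_erase.mpr ⟨by rw [h]; exact hxy, Finset.mem_univ _⟩, by
            rw [h, Finset.pair_comm]⟩
      have h5 := (Finset.card_le_card h4).trans Finset.card_image_le
      rw [Finset.card_erase_of_mem (Finset.mem_univ _), Finset.card_univ, Fintype.card_fin] at h5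
      exact_mod_cast h5
    linarith

end Pool.Agent.KS6_98.FI
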