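import Pool.Agent.KS6_98.FI.A

set_option autoImplicit false
set_option linter.unusedSectionVars false

/-!
# The strong Lefschetz property of monomial complete intersections, in coordinates

If `v 0, …, v n` is a basis and `w = ∑ μ i v i` with `μ i ≠ 0` for all `i`, then `D_w ^ r` maps the
forms of degree `i + r` killed by all `D_{v j} ^ b` onto those of degree `i`, provided that
`2 i + r ≤ (n + 1) (b - 1)`.
-/

open MvPolynomial

namespace Pool.Agent.KS6_98.FI

open Pool.Agent.H732R3.FI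

variable {n : ℕ}

theorem Epow_l_mul {u lam : Fin (n + 1) → ℂ} (h : ∑ i, lam i * u i = 1) (k : ℕ)
    (G : MvPolynomial (Fin (n + 1)) ℂ) :
    (E u ^ k) (lf lam * G) = lf lam * (E u ^ k) G + (k : ℂ) • (E u ^ (k - 1)) G := by
  induction k with
  | zero => simp
  | succ k ih =>
    have h0 : ∀ F : MvPolynomial (Fin (n + 1)) ℂ, E u ((E u ^ k) F) = (E u ^ (k + 1)) F := by
      intro F
      rw [pow_succ' (E u) k, Module.End.mul_apply]
    rw [← h0, ih, map_add, map_smul, E_apply u (lf lam * _), Derivation.leibniz, ← E_apply,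
      ← E_apply, E_lf, h, h0, C_1, smul_eq_mul, smul_eq_mul, mul_one, Nat.add_sub_cancel]
    rcases Nat.eq_zero_or_pos k with rfl | hk
    · simp
    · obtain ⟨e, rfl⟩ : ∃ e, k = e + 1 := ⟨k - 1, by omega⟩
      have h1 : E u ((E u ^ (e + 1 - 1)) G) = (E u ^ (e + 1)) G := by
        rw [Nat.add_sub_cancel, pow_succ' (E u) e, Module.End.mul_apply]
      rw [h1, add_assoc]
      congr 1
      push_cast
      rw [add_smul ((e : ℂ) + 1) 1, one_smul]
      exact add_comm _ _

section

variable (v lam : Fin (n + 1) → Fin (n + 1) → ℂ) (μ : Fin (n + 1) → ℂ)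

/-- The combination of the vectors. -/
def ww : Fin (n + 1) → ℂ := fun k => ∑ i, μ i * v i k

theorem E_ww (F : MvPolynomial (Fin (n + 1)) ℂ) : E (ww v μ) F = ∑ i, μ i • E (v i) F := by
  simp only [E_apply, DD_apply, ww, Finset.sum_smul, Finset.smul_sum, smul_smul]
  exact Finset.sum_comm

variable {v lam μ}

theorem lam_ww (hd : ∀ i j, ∑ k, lam i k * v j k = if i = j then 1 else 0) (i : Fin (n + 1)) :
    ∑ k, lam i k * ww v μ k = μ i := by
  unfold ww
  have h1 : ∀ k, lam i k * ∑ j, μ j * v j k = ∑ j, μ j * (lam i k * v j k) := by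
    intro k
    rw [Finset.mul_sum]
    exact Finset.sum_congr rfl fun j _ => by ring
  rw [Finset.sum_congr rfl fun k _ => h1 k, Finset.sum_comm]
  rw [Finset.sum_congr rfl fun j _ => by rw [← Finset.mul_sum, hd i j]]
  simp

theorem dual_symm (hd : ∀ i j, ∑ k, lam i k * v j k = if i = j then 1 else 0)
    (k l : Fin (n + 1)) : ∑ i, v i l * lam i k = if l = k then 1 else 0 := by
  have h1 : Matrix.of lam * (Matrix.of v).transpose = 1 := by
    ext i j
    rw [Matrix.mul_apply, Matrix.one_apply]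
    exact hd i j
  have h2 := mul_eq_one_comm.mp h1
  have h3 := congrFun (congrFun h2 l) k
  rw [Matrix.mul_apply, Matrix.one_apply] at h3
  exact h3

theorem euler (hd : ∀ i j, ∑ k, lam i k * v j k = if i = j then 1 else 0) {d : ℕ}
    {F : MvPolynomial (Fin (n + 1)) ℂ} (hF : F.IsHomogeneous d) :
    ∑ i, lf (lam i) * E (v i) F = (d : ℂ) • F := by
  have h := hF.sum_X_mul_pderiv
  have h1 : ∀ i, lf (lam i) * E (v i) F =
      ∑ l, ∑ k, C (v i l * lam i k) * (X k * pderiv l F) := by
    intro i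
    rw [E_apply, DD_apply, lf, Finset.sum_mul_sum, Finset.sum_comm]
    refine Finset.sum_congr rfl fun l _ => Finset.sum_congr rfl fun k _ => ?_
    rw [MvPolynomial.smul_eq_C_mul, C_mul]
    ring
  rw [Finset.sum_congr rfl fun i _ => h1 i, Finset.sum_comm]
  have h2 : ∀ l, ∑ i, ∑ k, C (v i l * lam i k) * (X k * pderiv l F) = X l * pderiv l F := by
    intro l
    rw [Finset.sum_comm]
    have h3 : ∀ k, ∑ i, C (v i l * lam i k) * (X k * pderiv l F) =
        if l = k then X k * pderiv l F else 0 := by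
      intro k
      rw [← Finset.sum_mul, ← map_sum, dual_symm hd k l]
      split_ifs <;> simp
    rw [Finset.sum_congr rfl fun k _ => h3 k, Finset.sum_ite_eq, if_pos (Finset.mem_univ _)]
  rw [Finset.sum_congr rfl fun l _ => h2 l, h, MvPolynomial.smul_eq_C_mul]
  simp

variable (v lam μ)

/-- The raising operator. -/
noncomputable def U (a : ℕ) (F : MvPolynomial (Fin (n + 1)) ℂ) : MvPolynomial (Fin (n + 1)) ℂ :=
  ∑ i, (μ i)⁻¹ • ((a : ℂ) • (lf (lam i) * F) - lf (lam i) * (lf (lam i) * E (v i) F))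

variable {v lam μ}

theorem U_zero (a : ℕ) : U v lam μ a 0 = 0 := by
  simp [U]

theorem comm_one (hd : ∀ i j, ∑ k, lam i k * v j k = if i = j then 1 else 0)
    (hμ : ∀ i, μ i ≠ 0) (a : ℕ) {q : ℕ} {F : MvPolynomial (Fin (n + 1)) ℂ}
    (hF : F.IsHomogeneous q) :
    E (ww v μ) (U v lam μ a F) =
      U v lam μ a (E (ww v μ) F) + (((n + 1 : ℕ) : ℂ) * a - 2 * q) • F := by
  have hl : ∀ i, E (ww v μ) (lf (lam i)) = C (μ i) := by
    intro i
    rw [E_lf, lam_ww hd]
  have h1 : ∀ i, E (ww v μ) ((μ i)⁻¹ • ((a : ℂ) • (lf (lam i) * F) -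
      lf (lam i) * (lf (lam i) * E (v i) F))) =
      (μ i)⁻¹ • ((a : ℂ) • (lf (lam i) * E (ww v μ) F) -
        lf (lam i) * (lf (lam i) * E (v i) (E (ww v μ) F))) +
      ((a : ℂ) • F - (2 : ℂ) • (lf (lam i) * E (v i) F)) := by
    intro i
    have h2 : E (ww v μ) (E (v i) F) = E (v i) (E (ww v μ) F) := by
      have := Epow_comm (ww v μ) (v i) 1 1 F
      simpa using this
    have h3 : ∀ G, E (ww v μ) (lf (lam i) * G) = lf (lam i) * E (ww v μ) G + C (μ i) * G := by
      intro G
      rw [E_apply, Derivation.leibniz, ← E_apply, ← E_apply, hl, smul_eq_mul, smul_eq_mul]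
      ring
    rw [map_smul, map_sub, map_smul, h3, h3, h3, h2]
    have h4 : C ((μ i)⁻¹) * C (μ i) = (1 : MvPolynomial (Fin (n + 1)) ℂ) := by
      rw [← C_mul, inv_mul_cancel₀ (hμ i), C_1]
    simp only [MvPolynomial.smul_eq_C_mul]
    have h5 : (C (2 : ℂ) : MvPolynomial (Fin (n + 1)) ℂ) = 2 := map_ofNat C 2
    rw [h5]
    linear_combination (C (a : ℂ) * F - 2 * (lf (lam i) * E (v i) F)) * h4
  unfold U
  rw [map_sum, Finset.sum_congr rfl fun i _ => h1 i, Finset.sum_add_distrib]
  congr 1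
  rw [Finset.sum_sub_distrib, Finset.sum_const, Finset.card_univ, Fintype.card_fin,
    ← Finset.smul_sum, euler hd hF, sub_smul, mul_smul, ← Nat.cast_smul_eq_nsmul ℂ, mul_smul]

theorem comm_pow (hd : ∀ i j, ∑ k, lam i k * v j k = if i = j then 1 else 0)
    (hμ : ∀ i, μ i ≠ 0) (a : ℕ) {q : ℕ} {F : MvPolynomial (Fin (n + 1)) ℂ}
    (hF : F.IsHomogeneous q) (r : ℕ) :
    (E (ww v μ) ^ (r + 1)) (U v lam μ a F) = U v lam μ a ((E (ww v μ) ^ (r + 1)) F) +
      (((r + 1 : ℕ) : ℂ) * (((n + 1 : ℕ) : ℂ) * a - 2 * q + r)) • (E (ww v μ) ^ r) F := by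
  have hstep : ∀ r : ℕ, E (ww v μ) (U v lam μ a ((E (ww v μ) ^ r) F)) =
      U v lam μ a ((E (ww v μ) ^ (r + 1)) F) +
        (((n + 1 : ℕ) : ℂ) * a - 2 * ((q : ℂ) - r)) • (E (ww v μ) ^ r) F := by
    intro r
    rcases Nat.lt_or_ge q r with h | h
    · rw [Epow_hom_zero _ _ h hF, Epow_hom_zero _ _ (show q < r + 1 by omega) hF, U_zero, map_zero,
        smul_zero, add_zero]
    · have h1 : ((E (ww v μ) ^ r) F).IsHomogeneous (q - r) :=
        Epow_hom _ r (by rwa [Nat.sub_add_cancel h])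
      rw [comm_one hd hμ a h1, Nat.cast_sub h, pow_succ' (E (ww v μ)) r, Module.End.mul_apply]
  induction r with
  | zero =>
    have := hstep 0
    simpa using this
  | succ r ih =>
    have hp : ∀ G : MvPolynomial (Fin (n + 1)) ℂ, (E (ww v μ) ^ (r + 1 + 1)) G =
        E (ww v μ) ((E (ww v μ) ^ (r + 1)) G) := by
      intro G
      rw [pow_succ' (E (ww v μ)) (r + 1), Module.End.mul_apply]
    have h1 : E (ww v μ) ((E (ww v μ) ^ r) F) = (E (ww v μ) ^ (r + 1)) F := by
      rw [pow_succ' (E (ww v μ)) r, Module.End.mul_apply]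
    rw [hp (U v lam μ a F), ih, map_add, map_smul, hstep (r + 1), h1, add_assoc, ← add_smul]
    congr 2
    push_cast
    ring

theorem U_mem (hd : ∀ i j, ∑ k, lam i k * v j k = if i = j then 1 else 0) (a : ℕ) {q : ℕ}
    {F : MvPolynomial (Fin (n + 1)) ℂ} (hF : F ∈ KK v (fun _ => a + 1) Finset.univ q) :
    U v lam μ a F ∈ KK v (fun _ => a + 1) Finset.univ (q + 1) := by
  refine ⟨?_, fun j _ => ?_⟩
  · refine IsHomogeneous.sum _ _ _ fun i _ => ?_
    have h1 : (lf (lam i) * F).IsHomogeneous (q + 1) := by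
      have := (lf_hom (lam i)).mul hF.1
      rwa [Nat.add_comm 1 q] at this
    have h2 : (lf (lam i) * (lf (lam i) * E (v i) F)).IsHomogeneous (q + 1) := by
      rcases Nat.eq_zero_or_pos q with rfl | hq
      · have h3 := Epow_hom_zero (v i) 1 (by omega) hF.1
        rw [pow_one] at h3
        rw [h3, mul_zero, mul_zero]
        exact isHomogeneous_zero _ _ _
      · obtain ⟨e, rfl⟩ : ∃ e, q = e + 1 := ⟨q - 1, by omega⟩
        have h3 := (lf_hom (lam i)).mul ((lf_hom (lam i)).mul (E_hom (v i) hF.1))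
        rwa [show 1 + (1 + e) = e + 1 + 1 by omega] at h3
    exact (homogeneousSubmodule (Fin (n + 1)) ℂ (q + 1)).smul_mem _
      ((homogeneousSubmodule (Fin (n + 1)) ℂ (q + 1)).sub_mem
        ((homogeneousSubmodule (Fin (n + 1)) ℂ (q + 1)).smul_mem _ h1) h2)
  · have hFj : (E (v j) ^ (a + 1)) F = 0 := hF.2 j (Finset.mem_univ _)
    change (E (v j) ^ (a + 1)) (U v lam μ a F) = 0
    unfold U
    rw [map_sum]
    refine Finset.sum_eq_zero fun i _ => ?_
    rw [map_smul, map_sub, map_smul]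
    by_cases hij : i = j
    · subst hij
      have hii : ∑ k, lam i k * v i k = 1 := by rw [hd i i, if_pos rfl]
      have h1 : (E (v i) ^ (a + 1)) (E (v i) F) = 0 := by
        have := Epow_comm (v i) (v i) (a + 1) 1 F
        rw [pow_one] at this
        rw [this, hFj, map_zero]
      have h2 : (E (v i) ^ a) (E (v i) F) = 0 := by
        rw [← hFj, pow_succ, Module.End.mul_apply]
      have h3 : (a : ℂ) • (E (v i) ^ (a - 1)) (E (v i) F) = (a : ℂ) • (E (v i) ^ a) F := by
        rcases Nat.eq_zero_or_pos a with rfl | ha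
        · simp
        · obtain ⟨e, rfl⟩ : ∃ e, a = e + 1 := ⟨a - 1, by omega⟩
          rw [Nat.add_sub_cancel, pow_succ (E (v i)) e, Module.End.mul_apply]
      rw [Epow_l_mul hii, Epow_l_mul hii, Epow_l_mul hii, Nat.add_sub_cancel, Epow_l_mul hii, hFj,
        h1, h2, h3]
      simp only [mul_zero, zero_add, smul_zero, MvPolynomial.smul_eq_C_mul]
      ring
    · have h0 : E (v j) (lf (lam i)) = 0 := by
        rw [E_lf, hd i j, if_neg hij, C_0]
      have h1 : (E (v j) ^ (a + 1)) (E (v i) F) = 0 := by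
        have := Epow_comm (v j) (v i) (a + 1) 1 F
        rw [pow_one] at this
        rw [this, hFj, map_zero]
      rw [Epow_mul_const _ h0, Epow_mul_const _ h0, Epow_mul_const _ h0, hFj, h1]
      simp

/-- The strong Lefschetz property. -/
theorem lefschetz (hd : ∀ i j, ∑ k, lam i k * v j k = if i = j then 1 else 0)
    (hμ : ∀ i, μ i ≠ 0) (a : ℕ) (i : ℕ) : ∀ r : ℕ, 2 * i + r ≤ (n + 1) * a →
      ∀ G ∈ KK v (fun _ => a + 1) Finset.univ i,
        ∃ F ∈ KK v (fun _ => a + 1) Finset.univ (i + r), (E (ww v μ) ^ r) F = G := by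
  induction i with
  | zero =>
    intro r
    induction r with
    | zero => exact fun _ G hG => ⟨G, hG, by simp⟩
    | succ r ih =>
      intro hr G hG
      obtain ⟨u, hu, huG⟩ := ih (by omega) G hG
      have hc := comm_pow hd hμ a hu.1 r
      have h1 : (E (ww v μ) ^ (r + 1)) u = 0 := Epow_hom_zero _ _ (by omega) hu.1
      rw [h1, U_zero, zero_add, huG] at hc
      set κ : ℂ := ((r + 1 : ℕ) : ℂ) * (((n + 1 : ℕ) : ℂ) * a - 2 * ((0 + r : ℕ) : ℂ) + r) with hκ
      have hκ0 : κ ≠ 0 := by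
        obtain ⟨t, ht⟩ : ∃ t, (n + 1) * a = r + 1 + t := ⟨(n + 1) * a - r - 1, by omega⟩
        have : κ = (((r + 1) * (t + 1) : ℕ) : ℂ) := by
          have h2 : ((n + 1 : ℕ) : ℂ) * a = ((r + 1 + t : ℕ) : ℂ) := by
            rw [← ht]
            push_cast
            ring
          rw [hκ, h2]
          push_cast
          ring
        rw [this]
        exact Nat.cast_ne_zero.mpr (by positivity)
      refine ⟨κ⁻¹ • U v lam μ a u, (KK v (fun _ => a + 1) Finset.univ _).smul_mem _
        (U_mem hd a hu), ?_⟩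
      rw [map_smul, hc, smul_smul, inv_mul_cancel₀ hκ0, one_smul]
  | succ i IH =>
    intro r
    induction r with
    | zero => exact fun _ G hG => ⟨G, hG, by simp⟩
    | succ r ih =>
      intro hr G hG
      obtain ⟨u, hu, huG⟩ := ih (by omega) G hG
      -- the derivative of `G`
      have hDu : (E (ww v μ) ^ (r + 1)) u ∈ KK v (fun _ => a + 1) Finset.univ i := by
        have : u ∈ KK v (fun _ => a + 1) Finset.univ (i + (r + 1)) := by
          rwa [show i + (r + 1) = i + 1 + r by omega]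
        exact Epow_mem _ _ this
      obtain ⟨z, hz, hzu⟩ := IH (r + 2) (by omega) _ hDu
      have hc := comm_pow hd hμ a hu.1 r
      have hc2 := comm_pow hd hμ a hz.1 (r + 1)
      rw [show r + 1 + 1 = r + 2 by omega, hzu] at hc2
      rw [huG] at hc
      set κ : ℂ := ((r + 1 : ℕ) : ℂ) *
        (((n + 1 : ℕ) : ℂ) * a - 2 * ((i + 1 + r : ℕ) : ℂ) + r) with hκ
      set κ' : ℂ := ((r + 2 : ℕ) : ℂ) *
        (((n + 1 : ℕ) : ℂ) * a - 2 * ((i + (r + 2) : ℕ) : ℂ) + ((r + 1 : ℕ) : ℂ)) with hκ'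
      have hκ0 : κ ≠ 0 := by
        obtain ⟨t, ht⟩ : ∃ t, (n + 1) * a = 2 * (i + 1) + (r + 1) + t :=
          ⟨(n + 1) * a - (2 * (i + 1) + (r + 1)), by omega⟩
        have : κ = (((r + 1) * (t + 1) : ℕ) : ℂ) := by
          have h2 : ((n + 1 : ℕ) : ℂ) * a = ((2 * (i + 1) + (r + 1) + t : ℕ) : ℂ) := by
            rw [← ht]
            push_cast
            ring
          rw [hκ, h2]
          push_cast
          ring
        rw [this]
        exact Nat.cast_ne_zero.mpr (by positivity)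
      have hUu : U v lam μ a u ∈ KK v (fun _ => a + 1) Finset.univ (i + 1 + (r + 1)) := by
        have := U_mem (μ := μ) hd a hu
        rwa [show i + 1 + r + 1 = i + 1 + (r + 1) by omega] at this
      have hz' : z ∈ KK v (fun _ => a + 1) Finset.univ (i + 1 + (r + 1)) := by
        rwa [show i + 1 + (r + 1) = i + (r + 2) by omega]
      have hDUz : E (ww v μ) (U v lam μ a z) ∈
          KK v (fun _ => a + 1) Finset.univ (i + 1 + (r + 1)) := by
        have h1 : U v lam μ a z ∈ KK v (fun _ => a + 1) Finset.univ (i + 1 + (r + 1) + 1) :=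
          U_mem (μ := μ) hd a hz'
        have := Epow_mem (ww v μ) 1 h1
        rwa [pow_one] at this
      refine ⟨κ⁻¹ • (U v lam μ a u - E (ww v μ) (U v lam μ a z) + κ' • z),
        (KK v (fun _ => a + 1) Finset.univ _).smul_mem _
          ((KK v (fun _ => a + 1) Finset.univ _).add_mem
            ((KK v (fun _ => a + 1) Finset.univ _).sub_mem hUu hDUz)
            ((KK v (fun _ => a + 1) Finset.univ _).smul_mem _ hz')), ?_⟩
      have h3 : (E (ww v μ) ^ (r + 1)) (E (ww v μ) (U v lam μ a z)) =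
          (E (ww v μ) ^ (r + 2)) (U v lam μ a z) := by
        rw [pow_succ (E (ww v μ)) (r + 1), Module.End.mul_apply]
      rw [map_smul, map_add, map_sub, map_smul, hc, h3, hc2]
      have h4 : U v lam μ a ((E (ww v μ) ^ (r + 1)) u) + κ • G -
          (U v lam μ a ((E (ww v μ) ^ (r + 1)) u) + κ' • (E (ww v μ) ^ (r + 1)) z) +
          κ' • (E (ww v μ) ^ (r + 1)) z = κ • G := by abel
      rw [h4, smul_smul, inv_mul_cancel₀ hκ0, one_smul]

end

end Pool.Agent.KS6_98.FI
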