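import Pool.Agent.KS6_98.FI.C
import Pool.Agent.KS6_98.FI.D

set_option autoImplicit false
set_option linter.unusedSectionVars false

/-!
# Dimensions of the linear systems for at most `n + 3` general points
-/

open MvPolynomial

namespace Pool.Agent.KS6_98.FI

open Pool.Agent.H732R3.FI
open Pool.Agent.TH142.WF (kI lvdim ldim ldim_zero ldim_le linSys VanishesToOrder vanish_of_E)

/-! ### Vanishing orders and derivatives -/

theorem KK_le_linSys {n d s m : ℕ} (hm : m ≤ d + 1) (p : Fin s → Fin (n + 1) → ℂ) :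
    KK p (fun _ => d + 1 - m) Finset.univ d ≤ linSys n d (fun _ => m) p := by
  intro F hF
  exact ⟨hF.1, fun i => vanish_of_E (N := d + 1 - m) (m := m) (by omega) (p i) hF.1
    (hF.2 i (Finset.mem_univ _))⟩

theorem finrank_KK_le {n d s m : ℕ} (hm : m ≤ d + 1) (p : Fin s → Fin (n + 1) → ℂ) :
    (Module.finrank ℂ (KK p (fun _ => d + 1 - m) Finset.univ d) : ℤ) ≤
      Module.finrank ℂ (linSys n d (fun _ => m) p) := by
  have hle : linSys n d (fun _ => m) p ≤ homogeneousSubmodule (Fin (n + 1)) ℂ d :=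
    fun F hF => hF.1
  have hfin : Module.Finite ℂ ↥(linSys n d (fun _ => m) p) :=
    Submodule.finiteDimensional_of_le hle
  exact_mod_cast Submodule.finrank_mono (R := ℂ) (KK_le_linSys hm p)

theorem E_of_vanish {n d m : ℕ} (hmd : m ≤ d + 1) (v : Fin (n + 1) → ℂ)
    {F : MvPolynomial (Fin (n + 1)) ℂ} (hF : F.IsHomogeneous d) (hv : VanishesToOrder v m F) :
    (E v ^ (d + 1 - m)) F = 0 := by
  rcases Nat.eq_zero_or_pos m with rfl | hm
  · exact Epow_hom_zero _ _ (by omega) hF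
  obtain ⟨N, hN⟩ : ∃ N, N = d + 1 - m := ⟨_, rfl⟩
  rw [← hN]
  have hNd : N ≤ d := by omega
  have hh : ((E v ^ N) F).IsHomogeneous (d - N) :=
    Epow_hom v N (by rwa [Nat.sub_add_cancel hNd])
  ext α
  rw [coeff_zero]
  by_cases hα : α.degree = d - N
  swap
  · exact hh.coeff_eq_zero hα
  have ht := taylor_eval (A := MvPolynomial (Fin (n + 1)) ℂ) X v 1 F (d + 1)
    (fun k hk => Epow_hom_zero v k (by omega) hF)
  have e : (fun j => X j + 1 * algebraMap ℂ (MvPolynomial (Fin (n + 1)) ℂ) (v j)) =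
      fun j => X j + C (v j) := by
    funext j
    rw [one_mul]
    rfl
  rw [e] at ht
  have h1 := hv α (by omega)
  rw [ht, coeff_sum, Finset.sum_eq_single N] at h1
  · rw [one_pow, mul_one, aeval_X_left_apply, MvPolynomial.algebraMap_eq, coeff_C_mul] at h1
    exact (mul_eq_zero.mp h1).resolve_left
      (inv_ne_zero (Nat.cast_ne_zero.mpr (Nat.factorial_ne_zero N)))
  · intro k hk hkN
    rw [Finset.mem_range] at hk
    have hk' : ((E v ^ k) F).IsHomogeneous (d - k) :=
      Epow_hom v k (by rwa [Nat.sub_add_cancel (by omega)])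
    rw [one_pow, mul_one, aeval_X_left_apply, MvPolynomial.algebraMap_eq, coeff_C_mul,
      hk'.coeff_eq_zero (by omega), mul_zero]
  · intro h
    exact absurd (Finset.mem_range.mpr (by omega)) h

theorem linSys_le_KK {n d s m : ℕ} (hm : m ≤ d + 1) (p : Fin s → Fin (n + 1) → ℂ) :
    linSys n d (fun _ => m) p ≤ KK p (fun _ => d + 1 - m) Finset.univ d := by
  intro F hF
  exact ⟨hF.1, fun i _ => E_of_vanish hm (p i) hF.1 (hF.2 i)⟩

/-! ### At most `n + 1` points -/

/-- The square matrix of the first `t` coordinates of the first `t` points. -/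
def Mt {n s t : ℕ} (hts : t ≤ s) (htn : t ≤ n + 1) (p : Fin s → Fin (n + 1) → ℂ) :
    Matrix (Fin t) (Fin t) ℂ :=
  Matrix.of fun i k => p (Fin.castLE hts i) (Fin.castLE htn k)

/-- The generic determinant. -/
noncomputable def Dt {n s t : ℕ} (hts : t ≤ s) (htn : t ≤ n + 1) :
    MvPolynomial (Fin s × Fin (n + 1)) ℂ :=
  (Matrix.of fun i k => X (Fin.castLE hts i, Fin.castLE htn k) :
    Matrix (Fin t) (Fin t) (MvPolynomial (Fin s × Fin (n + 1)) ℂ)).det

theorem eval_Dt {n s t : ℕ} (hts : t ≤ s) (htn : t ≤ n + 1) (p : Fin s → Fin (n + 1) → ℂ) :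
    eval (fun x : Fin s × Fin (n + 1) => p x.1 x.2) (Dt hts htn) = (Mt hts htn p).det := by
  unfold Dt Mt
  rw [RingHom.map_det]
  congr 1
  ext i k
  simp

/-- The unit vectors, and the vector `(1, …, 1)` for large indices. -/
def p0 (n s : ℕ) : Fin s → Fin (n + 1) → ℂ := fun i k =>
  if i.1 ≤ n then (if i.1 = k.1 then 1 else 0) else 1

theorem Mt_p0 {n s t : ℕ} (hts : t ≤ s) (htn : t ≤ n + 1) : Mt hts htn (p0 n s) = 1 := by
  ext i k
  rw [Matrix.one_apply]
  change p0 n s (Fin.castLE hts i) (Fin.castLE htn k) = _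
  unfold p0
  have h1 : (Fin.castLE hts i).1 = i.1 := rfl
  have h2 : (Fin.castLE htn k).1 = k.1 := rfl
  rw [h1, h2, if_pos (by omega)]
  by_cases h : i = k
  · rw [if_pos h, if_pos (by rw [h])]
  · rw [if_neg h, if_neg (fun h' => h (Fin.ext h'))]

theorem Dt_ne {n s t : ℕ} (hts : t ≤ s) (htn : t ≤ n + 1) :
    (Dt hts htn : MvPolynomial (Fin s × Fin (n + 1)) ℂ) ≠ 0 := by
  intro h
  have h1 := eval_Dt hts htn (p0 n s)
  rw [h, map_zero, Mt_p0, Matrix.det_one] at h1
  exact zero_ne_one h1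

theorem exists_dual {n s : ℕ} (hs : s ≤ n + 1) {p : Fin s → Fin (n + 1) → ℂ}
    (hp : (Mt le_rfl hs p).det ≠ 0) :
    ∃ lam : Fin s → Fin (n + 1) → ℂ, ∀ i j, ∑ k, lam i k * p j k = if i = j then 1 else 0 := by
  set A := Mt le_rfl hs p with hA
  have hu : IsUnit A.det := isUnit_iff_ne_zero.mpr hp
  refine ⟨fun i k => if h : k.1 < s then A⁻¹ ⟨k.1, h⟩ i else 0, fun i j => ?_⟩
  have h1 : ∑ k : Fin (n + 1), (if h : k.1 < s then A⁻¹ ⟨k.1, h⟩ i else 0) * p j k =
      ∑ k : Fin s, A j k * A⁻¹ k i := by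
    have h2 : ∑ k : Fin s, A j k * A⁻¹ k i =
        ∑ k ∈ (Finset.univ : Finset (Fin s)).map (Fin.castLEEmb hs),
          (if h : k.1 < s then A⁻¹ ⟨k.1, h⟩ i else 0) * p j k := by
      rw [Finset.sum_map]
      refine Finset.sum_congr rfl fun k _ => ?_
      have h3 : (Fin.castLEEmb hs k).1 = k.1 := rfl
      rw [dif_pos (show (Fin.castLEEmb hs k).1 < s from k.2), mul_comm]
      rfl
    rw [h2]
    symm
    refine Finset.sum_subset (Finset.subset_univ _) fun k _ hk => ?_
    rw [dif_neg, zero_mul]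
    intro hks
    exact hk (Finset.mem_map.mpr ⟨⟨k.1, hks⟩, Finset.mem_univ _, rfl⟩)
  rw [h1, ← Matrix.mul_apply, Matrix.mul_nonsing_inv _ hu, Matrix.one_apply]
  by_cases h : i = j
  · rw [if_pos h, if_pos h.symm]
  · rw [if_neg h, if_neg (Ne.symm h)]

/-! ### The first `n + 1` points among more points -/

theorem KK_reindex {n s b d : ℕ} (hs : n + 1 ≤ s) (p : Fin s → Fin (n + 1) → ℂ) :
    KK p (fun _ => b) (fst s (n + 1)) d =
      KK (fun i => p (Fin.castLE hs i)) (fun _ => b) Finset.univ d := by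
  ext F
  rw [mem_KK, mem_KK]
  constructor
  · rintro ⟨h1, h2⟩
    exact ⟨h1, fun i _ => h2 (Fin.castLE hs i) (mem_fst.mpr i.2)⟩
  · rintro ⟨h1, h2⟩
    exact ⟨h1, fun i hi => h2 ⟨i.1, mem_fst.mp hi⟩ (Finset.mem_univ _)⟩

/-- Dual forms for the first `n + 1` points. -/
theorem exists_dual_first {n s : ℕ} (hs : n + 1 ≤ s) {p : Fin s → Fin (n + 1) → ℂ}
    (hp : (Mt hs le_rfl p).det ≠ 0) :
    ∃ lam : Fin (n + 1) → Fin (n + 1) → ℂ,
      ∀ i j, ∑ k, lam i k * p (Fin.castLE hs j) k = if i = j then 1 else 0 :=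
  exists_dual (n := n) (s := n + 1) le_rfl (p := fun i => p (Fin.castLE hs i)) hp

theorem finrank_first {n s b : ℕ} (hs : n + 1 ≤ s) {p : Fin s → Fin (n + 1) → ℂ}
    (hp : (Mt hs le_rfl p).det ≠ 0) (d : ℕ) :
    (Module.finrank ℂ (KK p (fun _ => b) (fst s (n + 1)) d) : ℤ) =
      FK n (fun _ => b) (fst s (n + 1)) d := by
  obtain ⟨lam, hlam⟩ := exists_dual_first hs hp
  rw [KK_reindex hs, finrank_KK Finset.univ (fun i _ j _ => hlam i j),
    FK_const (by rw [Finset.card_univ, Fintype.card_fin]), FK_const (card_fst hs)]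

/-- One point more: the lower bound. -/
theorem finrank_next {n s b : ℕ} (hs : n + 2 ≤ s) {p : Fin s → Fin (n + 1) → ℂ}
    (hp : (Mt (by omega) le_rfl p : Matrix (Fin (n + 1)) (Fin (n + 1)) ℂ).det ≠ 0) (d : ℕ) :
    FK n (fun _ => b) (fst s (n + 2)) d ≤
      (Module.finrank ℂ (KK p (fun _ => b) (fst s (n + 2)) d) : ℤ) := by
  rw [fst_succ (show n + 1 < s by omega), FK_insert (notMem_fst _), ← finrank_first (by omega) hp]
  split_ifs with h
  · obtain ⟨e, rfl⟩ : ∃ e, d = e + b := ⟨d - b, by omega⟩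
    rw [Nat.add_sub_cancel, ← finrank_first (by omega) hp]
    have h1 := finrank_insert_ge p (fun _ => b) (fst s (n + 1)) e ⟨n + 1, by omega⟩
    have h2 : (Module.finrank ℂ (KK p (fun _ => b) (fst s (n + 1)) (e + b)) : ℤ) ≤
        ((Module.finrank ℂ (KK p (fun _ => b) (fst s (n + 1)) e) +
          Module.finrank ℂ (KK p (fun _ => b)
            (insert (⟨n + 1, by omega⟩ : Fin s) (fst s (n + 1))) (e + b)) : ℕ) : ℤ) := by
      exact_mod_cast h1
    push_cast at h2
    linarith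
  · rw [sub_zero, KK_insert_small (b := fun _ => b) (by omega)]

/-- One point more: the exact value in low degrees. -/
theorem finrank_next_eq {n s a : ℕ} (hs : n + 2 ≤ s) {p : Fin s → Fin (n + 1) → ℂ}
    (hp : (Mt (by omega) le_rfl p : Matrix (Fin (n + 1)) (Fin (n + 1)) ℂ).det ≠ 0)
    (hq : ∀ i, ((Mt (by omega) le_rfl p : Matrix (Fin (n + 1)) (Fin (n + 1)) ℂ).updateRow i
      (p ⟨n + 1, by omega⟩)).det ≠ 0) (d : ℕ) (hd : 2 * d ≤ (n + 1) * a + (a + 1)) :
    (Module.finrank ℂ (KK p (fun _ => a + 1) (fst s (n + 2)) d) : ℤ) =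
      FK n (fun _ => a + 1) (fst s (n + 2)) d := by
  have hs1 : n + 1 ≤ s := by omega
  obtain ⟨lam, hlam⟩ := exists_dual_first hs1 hp
  rw [fst_succ (show n + 1 < s by omega), FK_insert (notMem_fst _), ← finrank_first hs1 hp]
  split_ifs with h
  · obtain ⟨e, rfl⟩ : ∃ e, d = e + (a + 1) := ⟨d - (a + 1), by omega⟩
    rw [Nat.add_sub_cancel, ← finrank_first hs1 hp]
    set w : Fin (n + 1) → ℂ := p ⟨n + 1, by omega⟩ with hw
    set q : Fin (n + 1) → Fin (n + 1) → ℂ := fun i => p (Fin.castLE hs1 i) with hqd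
    set μ : Fin (n + 1) → ℂ := fun i => ∑ k, lam i k * w k with hμ
    have hww : ww q μ = w := by
      funext k
      have h1 : ∀ i, μ i * q i k = ∑ l, w l * (q i k * lam i l) := by
        intro i
        rw [hμ]
        simp only
        rw [Finset.sum_mul]
        exact Finset.sum_congr rfl fun l _ => by ring
      change ∑ i, μ i * q i k = w k
      rw [Finset.sum_congr rfl fun i _ => h1 i, Finset.sum_comm]
      rw [Finset.sum_congr rfl fun l _ => by rw [← Finset.mul_sum, dual_symm hlam l k]]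
      simp
    have hμ0 : ∀ i, μ i ≠ 0 := by
      intro i hi
      apply hq i
      have h1 : w = ∑ k, μ k • (Mt hs1 le_rfl p : Matrix (Fin (n + 1)) (Fin (n + 1)) ℂ) k := by
        rw [← hww]
        funext k
        rw [Finset.sum_apply]
        rfl
      change ((Mt hs1 le_rfl p).updateRow i w).det = 0
      rw [h1, Matrix.det_updateRow_sum, hi, zero_smul]
    have h1 := finrank_insert_eq (v := p) (b := fun _ => a + 1) (S := fst s (n + 1)) (d := e)
      (j := (⟨n + 1, by omega⟩ : Fin s)) (by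
        intro G hG
        rw [KK_reindex hs1] at hG
        obtain ⟨F, hF, hFG⟩ := lefschetz (v := q) (lam := lam) (μ := μ) hlam hμ0 a e (a + 1)
          (by omega) G hG
        refine ⟨F, ?_, ?_⟩
        · rw [KK_reindex hs1]
          exact hF
        · rw [hww] at hFG
          exact hFG)
    have h2 : (((Module.finrank ℂ (KK p (fun _ => a + 1) (fst s (n + 1)) e) +
          Module.finrank ℂ (KK p (fun _ => a + 1)
            (insert (⟨n + 1, by omega⟩ : Fin s) (fst s (n + 1))) (e + (a + 1))) : ℕ) : ℤ)) =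
        (Module.finrank ℂ (KK p (fun _ => a + 1) (fst s (n + 1)) (e + (a + 1))) : ℤ) := by
      exact_mod_cast h1
    push_cast at h2
    linarith
  · rw [sub_zero, KK_insert_small (b := fun _ => a + 1) (by omega)]

/-- Two points more: the lower bound. -/
theorem finrank_next_next {n s a : ℕ} (hs : n + 3 ≤ s) {p : Fin s → Fin (n + 1) → ℂ}
    (hp : (Mt (by omega) le_rfl p : Matrix (Fin (n + 1)) (Fin (n + 1)) ℂ).det ≠ 0)
    (hq : ∀ i, ((Mt (by omega) le_rfl p : Matrix (Fin (n + 1)) (Fin (n + 1)) ℂ).updateRow i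
      (p ⟨n + 1, by omega⟩)).det ≠ 0) (d : ℕ) (hd : 2 * d ≤ (n + 1) * a + 3 * (a + 1)) :
    FK n (fun _ => a + 1) (fst s (n + 3)) d ≤
      (Module.finrank ℂ (KK p (fun _ => a + 1) (fst s (n + 3)) d) : ℤ) := by
  have hlow := finrank_next (b := a + 1) (show n + 2 ≤ s by omega) hp
  rw [fst_succ (show n + 2 < s by omega), FK_insert (notMem_fst _)]
  split_ifs with h
  · obtain ⟨e, rfl⟩ : ∃ e, d = e + (a + 1) := ⟨d - (a + 1), by omega⟩
    rw [Nat.add_sub_cancel, ← finrank_next_eq (show n + 2 ≤ s by omega) hp hq e (by omega)]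
    have h1 := finrank_insert_ge p (fun _ => a + 1) (fst s (n + 2)) e ⟨n + 2, by omega⟩
    have h2 : (Module.finrank ℂ (KK p (fun _ => a + 1) (fst s (n + 2)) (e + (a + 1))) : ℤ) ≤
        ((Module.finrank ℂ (KK p (fun _ => a + 1) (fst s (n + 2)) e) +
          Module.finrank ℂ (KK p (fun _ => a + 1)
            (insert (⟨n + 2, by omega⟩ : Fin s) (fst s (n + 2))) (e + (a + 1))) : ℕ) : ℤ) := by
      exact_mod_cast h1
    push_cast at h2
    have h3 := hlow (e + (a + 1))
    linarith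
  · rw [sub_zero, KK_insert_small (b := fun _ => a + 1) (by omega)]
    exact hlow d

end Pool.Agent.KS6_98.FI
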