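import Pool.Agent.KS6_98.FI.Dim
import Pool.Graph.R_seed8.Results.MP_921642_ag.WeakInequality

set_option autoImplicit false
set_option linter.unusedSectionVars false

/-!
# The weak inequality and its exceptions
-/

open MvPolynomial

namespace Pool.Agent.KS6_98.FI

open Pool.Agent.H732R3.FI
open Pool.Agent.TH142.WF (kI lvdim ldim ldim_zero ldim_le linSys VanishesToOrder vanish_of_E
  simple_linSys lvdim_const kc)

/-- The weak Fröberg–Iarrobino inequality for general points. -/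
def Weak (n d m s : ℕ) : Prop :=
  ∃ P : MvPolynomial (Fin s × Fin (n + 1)) ℂ, P ≠ 0 ∧ ∀ p : Fin s → Fin (n + 1) → ℂ,
    eval (fun x : Fin s × Fin (n + 1) => p x.1 x.2) P ≠ 0 →
    ldim n d (fun _ : Fin s => m) ≤ (Module.finrank ℂ (linSys n d (fun _ => m) p) : ℤ)

/-- The exceptional cases. -/
def Exc (n d m s : ℕ) : Prop := Even n ∧ s = n + 1 ∧ m ≤ d + 1 ∧ n * d ≤ (n + 1) * (m - 1)

theorem weak_of_zero {n d m s : ℕ} (h : ldim n d (fun _ : Fin s => m) = 0) : Weak n d m s := by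
  refine ⟨1, one_ne_zero, fun p _ => ?_⟩
  rw [h]
  positivity

/-- Points on a line. -/
theorem weak_one {d m s : ℕ} (hm : 1 ≤ m) (hs : 1 ≤ s) : Weak 1 d m s := by
  have hlv : lvdim 1 d (fun _ : Fin s => m) = (d + 1 : ℤ) - s * m := by
    rw [lvdim_const, Finset.sum_range_succ, Finset.sum_range_succ, Finset.sum_range_zero]
    simp [kc]
    ring
  rcases Nat.lt_or_ge (d + 1) m with h | h
  · refine weak_of_zero (ldim_zero (fun _ => m) (fun _ => le_rfl) ?_)
    rw [hlv]
    have h1 : (d : ℤ) + 2 ≤ m := by exact_mod_cast h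
    have h2 : (1 : ℤ) ≤ s := by exact_mod_cast hs
    nlinarith
  · refine ⟨1, one_ne_zero, fun p _ => (ldim_le 1 d _).trans (max_le ?_ (by positivity))⟩
    have h3 := simple_linSys (n := 1) (d := d) (s := s) (m := m) hm h p
    rw [hlv]
    rw [Nat.choose_one_right, Nat.choose_one_right, show 1 + m - 1 = m by omega] at h3
    push_cast at h3
    linarith

theorem cc_nonneg (n d x : ℕ) : 0 ≤ cc n d x := by
  unfold cc
  split_ifs
  · positivity
  · exact le_rfl

/-- At most `n + 1` points. -/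
theorem weak_small {n d m s : ℕ} (hn : 2 ≤ n) (hs1 : 1 ≤ s) (hs : s ≤ n + 1) (hd : 1 ≤ d)
    (hm : 1 ≤ m) (hex : ¬ Exc n d m s) : Weak n d m s := by
  rcases Nat.lt_or_ge (d + 1) m with h | h
  · exact weak_of_zero (ldim_huge hn hs1 hs hd (by omega))
  refine ⟨Dt le_rfl hs, Dt_ne _ _, fun p hp =>
    (ldim_le n d _).trans (max_le ?_ (by positivity))⟩
  rw [eval_Dt] at hp
  obtain ⟨lam, hlam⟩ := exists_dual hs hp
  have hK := finrank_KK (v := p) (b := fun _ => d + 1 - m) Finset.univ (fun i _ j _ => hlam i j) d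
  have hle := finrank_KK_le h p
  have hlv : lvdim n d (fun _ : Fin s => m) ≤ FK n (fun _ : Fin s => d + 1 - m) Finset.univ d := by
    rcases Nat.lt_or_ge s (n + 1) with h1 | h1
    · rw [lvdim_full (fun _ => h)]
      intro I hI
      have := Finset.card_le_univ I
      rw [Fintype.card_fin] at this
      omega
    · obtain rfl : s = n + 1 := by omega
      rw [lvdim_succ (fun _ => h)]
      rcases Nat.even_or_odd n with he | ho
      · have h2 : ¬ (n * d ≤ (n + 1) * (m - 1)) := fun h' => hex ⟨he, rfl, h, h'⟩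
        have h3 : cc n d (∑ _i : Fin (n + 1), (d + 1 - m)) = 0 := by
          unfold cc
          rw [Finset.sum_const, Finset.card_univ, Fintype.card_fin, smul_eq_mul, if_neg]
          obtain ⟨t, rfl⟩ : ∃ t, m = t + 1 := ⟨m - 1, by omega⟩
          obtain ⟨u, hu⟩ : ∃ u, d = t + u := ⟨d - t, by omega⟩
          subst hu
          rw [Nat.add_sub_cancel] at h2
          rw [show t + u + 1 - (t + 1) = u by omega]
          have e1 : n * (t + u) = n * t + n * u := by ring
          have e2 : (n + 1) * t = n * t + t := by ring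
          have e3 : (n + 1) * u = n * u + u := by ring
          omega
        rw [h3, mul_zero, add_zero]
      · rw [ho.neg_one_pow]
        have := cc_nonneg n d (∑ _i : Fin (n + 1), (d + 1 - m))
        linarith
  rw [← hK] at hlv
  linarith

/-- The determinants for the genericity of the point number `n + 1`. -/
noncomputable def Qt {n s : ℕ} (hs : n + 2 ≤ s) (i : Fin (n + 1)) :
    MvPolynomial (Fin s × Fin (n + 1)) ℂ :=
  ((Matrix.of fun i k => X (Fin.castLE (show n + 1 ≤ s by omega) i, k) :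
    Matrix (Fin (n + 1)) (Fin (n + 1)) (MvPolynomial (Fin s × Fin (n + 1)) ℂ)).updateRow i
      (fun k => X (⟨n + 1, by omega⟩, k))).det

theorem eval_Qt {n s : ℕ} (hs : n + 2 ≤ s) (i : Fin (n + 1)) (p : Fin s → Fin (n + 1) → ℂ) :
    eval (fun x : Fin s × Fin (n + 1) => p x.1 x.2) (Qt hs i) =
      ((Mt (by omega) le_rfl p : Matrix (Fin (n + 1)) (Fin (n + 1)) ℂ).updateRow i
        (p ⟨n + 1, by omega⟩)).det := by
  unfold Qt
  rw [RingHom.map_det, RingHom.mapMatrix_apply, Matrix.map_updateRow]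
  congr 2
  · ext j k
    simp [Mt]
  · funext k
    simp

theorem Qt_ne {n s : ℕ} (hs : n + 2 ≤ s) (i : Fin (n + 1)) :
    (Qt hs i : MvPolynomial (Fin s × Fin (n + 1)) ℂ) ≠ 0 := by
  intro h
  have h1 := eval_Qt hs i (p0 n s)
  rw [h, map_zero, Mt_p0] at h1
  have h2 : p0 n s ⟨n + 1, by omega⟩ =
      ∑ k, (1 : ℂ) • (1 : Matrix (Fin (n + 1)) (Fin (n + 1)) ℂ) k := by
    funext l
    rw [Finset.sum_apply]
    simp only [Pi.smul_apply, one_smul]
    unfold p0
    rw [if_neg (by simp)]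
    have : ∀ k, (1 : Matrix (Fin (n + 1)) (Fin (n + 1)) ℂ) k l = if k = l then 1 else 0 :=
      fun k => Matrix.one_apply
    rw [Finset.sum_congr rfl fun k _ => this k]
    simp
  rw [h2, Matrix.det_updateRow_sum (1 : Matrix (Fin (n + 1)) (Fin (n + 1)) ℂ) i (fun _ => (1 : ℂ)),
    Matrix.det_one, smul_eq_mul, mul_one] at h1
  exact zero_ne_one h1

theorem fst_univ {s t : ℕ} (h : s ≤ t) : fst s t = Finset.univ := by
  ext i
  rw [mem_fst]
  have := i.2
  constructor
  · exact fun _ => Finset.mem_univ _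
  · exact fun _ => by omega

/-- `n + 2` and `n + 3` points. -/
theorem weak_next {n d m s : ℕ} (hn : 2 ≤ n) (hs : s = n + 2 ∨ s = n + 3) (hd : 1 ≤ d) :
    Weak n d m s := by
  rcases Nat.lt_or_ge ((n + 2) * m) (n * d + 2) with h | h
  swap
  · exact weak_of_zero (ldim_beyond hn (by omega) hd h)
  have hmd : m ≤ d := by
    by_contra hc
    have h1 : (n + 2) * (d + 1) ≤ (n + 2) * m := Nat.mul_le_mul_left _ (by omega)
    have e : (n + 2) * (d + 1) = n * d + 2 * d + n + 2 := by ring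
    omega
  obtain ⟨a, rfl⟩ : ∃ a, d = m + a := ⟨d - m, by omega⟩
  have e1 : (n + 2) * m = n * m + 2 * m := by ring
  have e2 : n * (m + a) = n * m + n * a := by ring
  have h2m : 2 * m ≤ n * a + 1 := by omega
  have hb : m + a + 1 - m = a + 1 := by omega
  have hlv : lvdim n (m + a) (fun _ : Fin s => m) =
      FK n (fun _ : Fin s => a + 1) Finset.univ (m + a) := by
    rw [lvdim_full (fun _ => by omega)]
    · rw [hb]
    · intro I hI
      rw [hb, Finset.sum_const, smul_eq_mul]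
      have h3 : (n + 1) * (a + 1) ≤ I.card * (a + 1) := Nat.mul_le_mul_right _ hI
      have e3 : (n + 1) * (a + 1) = n * a + a + n + 1 := by ring
      omega
  rcases hs with rfl | rfl
  · refine ⟨Dt (by omega) le_rfl, Dt_ne _ _, fun p hp =>
      (ldim_le n _ _).trans (max_le ?_ (by positivity))⟩
    rw [eval_Dt] at hp
    have h4 := finrank_next (b := a + 1) le_rfl hp (m + a)
    have h5 := finrank_KK_le (show m ≤ m + a + 1 by omega) p
    rw [hb] at h5
    rw [fst_univ le_rfl] at h4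
    rw [hlv]
    exact h4.trans h5
  · refine ⟨Dt (by omega) le_rfl * ∏ i, Qt (by omega) i,
      mul_ne_zero (Dt_ne _ _) (Finset.prod_ne_zero_iff.mpr fun i _ => Qt_ne _ i), fun p hp =>
      (ldim_le n _ _).trans (max_le ?_ (by positivity))⟩
    rw [map_mul, eval_Dt, map_prod] at hp
    have hp1 := left_ne_zero_of_mul hp
    have hp2 := Finset.prod_ne_zero_iff.mp (right_ne_zero_of_mul hp)
    have h4 := finrank_next_next (a := a) le_rfl hp1 (fun i => by
      rw [← eval_Qt (by omega) i p]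
      exact hp2 i (Finset.mem_univ _)) (m + a) (by
      have e3 : (n + 1) * a = n * a + a := by ring
      omega)
    have h5 := finrank_KK_le (show m ≤ m + a + 1 by omega) p
    rw [hb] at h5
    rw [fst_univ le_rfl] at h4
    rw [hlv]
    exact h4.trans h5

/-! ### The exceptions -/

theorem FK_exc {n d m : ℕ} (hm1 : 1 ≤ m) (hm : m ≤ d + 1) (hnd : n * d ≤ (n + 1) * (m - 1)) :
    FK n (fun _ : Fin (n + 1) => d + 1 - m) Finset.univ d = 0 := by
  rw [FK_const (by rw [Finset.card_univ, Fintype.card_fin])]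
  apply Hl_big
  rw [top_rl]
  obtain ⟨t, rfl⟩ : ∃ t, m = t + 1 := ⟨m - 1, by omega⟩
  obtain ⟨u, rfl⟩ : ∃ u, d = t + u := ⟨d - t, by omega⟩
  rw [Nat.add_sub_cancel] at hnd
  rw [show t + u + 1 - (t + 1) = u by omega]
  have h1 : (n : ℤ) * (t + u) ≤ (n + 1) * t := by exact_mod_cast hnd
  push_cast
  nlinarith

theorem empty_exc {n d m : ℕ} (hm1 : 1 ≤ m) (hm : m ≤ d + 1) (hnd : n * d ≤ (n + 1) * (m - 1))
    {p : Fin (n + 1) → Fin (n + 1) → ℂ} (hp : (Mt le_rfl le_rfl p).det ≠ 0) :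
    linSys n d (fun _ => m) p = ⊥ := by
  obtain ⟨lam, hlam⟩ := exists_dual le_rfl hp
  have hK := finrank_KK (v := p) (b := fun _ => d + 1 - m) Finset.univ (fun i _ j _ => hlam i j) d
  rw [FK_exc hm1 hm hnd] at hK
  have h1 : Module.finrank ℂ (KK p (fun _ => d + 1 - m) Finset.univ d) = 0 := by exact_mod_cast hK
  rw [Submodule.finrank_eq_zero] at h1
  rw [eq_bot_iff, ← h1]
  exact linSys_le_KK hm p

theorem ldim_exc {n d m : ℕ} (he : Even n) (hm1 : 1 ≤ m) (hm : m ≤ d + 1)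
    (hnd : n * d ≤ (n + 1) * (m - 1)) :
    ldim n d (fun _ : Fin (n + 1) => m) = (((n + 1) * m - n * d - 1).choose n : ℤ) := by
  have hneg : ¬ ∃ m' : Fin (n + 1) → ℕ, (∀ i, m' i ≤ m) ∧ lvdim n d m' < 0 := by
    rintro ⟨m', h1, h2⟩
    rw [lvdim_succ (fun i => (h1 i).trans hm), he.neg_one_pow, one_mul] at h2
    have hdet : (Mt le_rfl le_rfl (p0 n (n + 1)) : Matrix (Fin (n + 1)) (Fin (n + 1)) ℂ).det ≠ 0 := by
      rw [Mt_p0, Matrix.det_one]
      exact one_ne_zero
    obtain ⟨lam, hlam⟩ := exists_dual le_rfl hdet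
    have hK := finrank_KK (v := p0 n (n + 1)) (b := fun i => d + 1 - m' i) Finset.univ
      (fun i _ j _ => hlam i j) d
    have h3 := cc_nonneg n d (∑ i, (d + 1 - m' i))
    rw [← hK] at h2
    have h4 : (0 : ℤ) ≤ Module.finrank ℂ
      (KK (p0 n (n + 1)) (fun i => d + 1 - m' i) Finset.univ d) := by positivity
    linarith
  unfold ldim
  rw [if_neg hneg, lvdim_succ (fun _ => hm), FK_exc hm1 hm hnd, he.neg_one_pow, one_mul, zero_add,
    max_eq_left (cc_nonneg _ _ _)]
  unfold cc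
  obtain ⟨t, rfl⟩ : ∃ t, m = t + 1 := ⟨m - 1, by omega⟩
  obtain ⟨u, rfl⟩ : ∃ u, d = t + u := ⟨d - t, by omega⟩
  rw [Nat.add_sub_cancel] at hnd
  rw [Finset.sum_const, Finset.card_univ, Fintype.card_fin, smul_eq_mul,
    show t + u + 1 - (t + 1) = u by omega]
  have e1 : n * (t + u) = n * t + n * u := by ring
  have e2 : (n + 1) * t = n * t + t := by ring
  have e3 : (n + 1) * u = n * u + u := by ring
  have e4 : (n + 1) * (t + 1) = n * t + t + n + 1 := by ring
  rw [if_pos (by omega)]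
  congr 2
  omega

theorem not_weak {n d m s : ℕ} (hm : 1 ≤ m) (h : Exc n d m s) : ¬ Weak n d m s := by
  obtain ⟨he, rfl, hmd, hnd⟩ := h
  rintro ⟨P, hP, hw⟩
  obtain ⟨x, hx⟩ : ∃ x, eval x (P * Dt le_rfl le_rfl) ≠ 0 := by
    by_contra hc
    push Not at hc
    exact mul_ne_zero hP (Dt_ne _ _) (MvPolynomial.funext (fun q => by rw [hc q, map_zero]))
  rw [map_mul] at hx
  have h1 := hw (fun i j => x (i, j)) (left_ne_zero_of_mul hx)
  have h2 : (Mt le_rfl le_rfl (fun i j => x (i, j)) : Matrix (Fin (n + 1)) (Fin (n + 1)) ℂ).det ≠ 0 := by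
    rw [← eval_Dt]
    exact right_ne_zero_of_mul hx
  rw [empty_exc hm hmd hnd h2, ldim_exc he hm hmd hnd, finrank_bot] at h1
  have h3 : 0 < ((n + 1) * m - n * d - 1).choose n := by
    apply Nat.choose_pos
    obtain ⟨t, rfl⟩ : ∃ t, m = t + 1 := ⟨m - 1, by omega⟩
    rw [Nat.add_sub_cancel] at hnd
    have e4 : (n + 1) * (t + 1) = (n + 1) * t + n + 1 := by ring
    omega
  have h4 : (0 : ℤ) < (((n + 1) * m - n * d - 1).choose n : ℤ) := by exact_mod_cast h3
  have h5 : ((0 : ℕ) : ℤ) = 0 := rfl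
  linarith

/-- The classification. -/
theorem classification {n d m s : ℕ} (hn : 1 ≤ n) (hd : 1 ≤ d) (hm : 1 ≤ m) (hs : 1 ≤ s)
    (h : s ≤ n + 3 ∨ n ≤ 5 ∨ (n = 6 ∧ 13 ≤ s) ∨ 2 ^ n ≤ s ∨ n * d + 2 ≤ (n + 2) * m ∨
      (∃ c, 1 ≤ c ∧ c ≤ n ∧ s ≤ 2 ^ c + 1 ∧ 3 * m + c ≤ 2 * d + 3) ∨
      3 * m + n ≤ 2 * d + 3 ∨ 2 * m ≤ d + 1) :
    Weak n d m s ↔ ¬ Exc n d m s := by
  refine ⟨fun hw he => not_weak hm he hw, fun hex => ?_⟩
  rcases Nat.lt_or_ge n 2 with h1 | h1
  · obtain rfl : n = 1 := by omega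
    exact weak_one hm hs
  rcases Nat.lt_or_ge s (n + 2) with h2 | h2
  · exact weak_small h1 hs (by omega) hd hm hex
  rcases Nat.lt_or_ge s (n + 4) with h3 | h3
  · exact weak_next h1 (by omega) hd
  rcases Nat.lt_or_ge ((n + 2) * m) (n * d + 2) with h4 | h4
  swap
  · exact weak_of_zero (ldim_beyond h1 (by omega) hd h4)
  exact Pool.Agent.Results.MP_921642_ag.WeakInequality.result n d m s h1 hd hm (by
    rcases h with h | h | h | h | h | h | h | h
    · omega
    · rcases (by omega : n ≤ 4 ∨ n = 5) with h5 | h5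
      · exact Or.inl ⟨h5, by omega⟩
      · exact Or.inr (Or.inl ⟨h5, by omega⟩)
    · exact Or.inr (Or.inr (Or.inl h))
    · exact Or.inr (Or.inr (Or.inr (Or.inl ⟨h, by omega⟩)))
    · omega
    · exact Or.inr (Or.inr (Or.inr (Or.inr (Or.inl h))))
    · exact Or.inr (Or.inr (Or.inr (Or.inr (Or.inr (Or.inl h)))))
    · exact Or.inr (Or.inr (Or.inr (Or.inr (Or.inr (Or.inr h))))))

/-- The exceptions, explicitly. -/
theorem exceptions {n d m : ℕ} (hm : 1 ≤ m) (h : Exc n d m (n + 1))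
    (p : Fin (n + 1) → Fin (n + 1) → ℂ) (hp : LinearIndependent ℂ p) :
    linSys n d (fun _ => m) p = ⊥ ∧
      ldim n d (fun _ : Fin (n + 1) => m) = (((n + 1) * m - n * d - 1).choose n : ℤ) ∧
      0 < ((n + 1) * m - n * d - 1).choose n := by
  obtain ⟨he, -, hmd, hnd⟩ := h
  refine ⟨empty_exc hm hmd hnd ?_, ldim_exc he hm hmd hnd, ?_⟩
  · have h1 : IsUnit (Matrix.of p) := Matrix.linearIndependent_rows_iff_isUnit.mp hp
    exact ((Matrix.isUnit_iff_isUnit_det _).mp h1).ne_zero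
  · apply Nat.choose_pos
    obtain ⟨t, rfl⟩ : ∃ t, m = t + 1 := ⟨m - 1, by omega⟩
    rw [Nat.add_sub_cancel] at hnd
    have e4 : (n + 1) * (t + 1) = (n + 1) * t + n + 1 := by ring
    omega

end Pool.Agent.KS6_98.FI
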